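import Pool.Agent.EVN.M.Def
import Pool.Agent.EVN.Stmt
import Pool.Agent.EVN.K.KeyNar
import Pool.Agent.HEP.RnSeq

set_option autoImplicit false

/-!
Project EVN (MP_8c6f77_pr, note 3192), block M: `marea : MArea`, the AREA BOUND for the mass of the marked blocks.

PROOF. Words `l1 ++ c :: l2`, `l1` narrow of height `≤ R` (mass `≥ c U R`, `narrow`), `c` a marked block of size `≤ 60 R`, `l2` any word of height `≤ R`. The
marked vertex `z` lies in the box `Bx (61 R)` of `C R ^ 2` points, and `(l1 ++ c :: l2, z)` determines `l1`, `c`, `l2` (the block of `z` is given by its column).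
So `MM R * U R * U R ≤ C R ^ 2 * U (62 R) ≤ C R ^ 2 * U R`, and `R * b R ≤ U R`.
-/

namespace Pool.Agent.EVN

open Pool.Agent.Hhelper14.SAW Pool.Agent.HHP Pool.Agent.HEP Pool.Agent.PLY.G Pool.Agent.BEX.F
open scoped ENNReal

/-- The box as a finite set. -/
noncomputable def BxF (D : ℕ) : Finset (ℤ × ℤ) :=
  (Finset.Icc (-(3 * D : ℤ)) (3 * D) ×ˢ Finset.Icc (-(3 * D : ℤ)) (3 * D)).image fun p => ((p.1 - p.2) / 2, p.2)

theorem card_BxF (D : ℕ) : (BxF D).card ≤ (6 * D + 1) ^ 2 := by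
  refine Finset.card_image_le.trans ?_
  rw [Finset.card_product, Int.card_Icc, sq]
  have h : (3 * (D : ℤ) + 1 - -(3 * (D : ℤ))).toNat = 6 * D + 1 := by omega
  rw [h]

theorem mem_BxF {D : ℕ} {z : ℤ × ℤ} (h : z ∈ Bx D) : z ∈ BxF D := by
  obtain ⟨h1, h2⟩ := h
  rw [abs_le] at h1 h2
  unfold BxF
  rw [Finset.mem_image]
  refine ⟨(F0 z, z.2), ?_, ?_⟩
  · rw [Finset.mem_product, Finset.mem_Icc, Finset.mem_Icc]
    exact ⟨h1, h2⟩
  · have e : (F0 z - z.2) / 2 = z.1 := by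
      unfold F0
      omega
    show ((F0 z - z.2) / 2, z.2) = z
    rw [e]

theorem F0_sub' (z w : ℤ × ℤ) : F0 (z - w) = F0 z - F0 w := by
  unfold F0
  rw [Prod.fst_sub, Prod.snd_sub]
  ring

/-- The block of a vertex is given by its column. -/
theorem split_uniq {l1 l2 l1' l2' : List Blk} {c c' : Blk} {z : ℤ × ℤ} (e : l1 ++ c :: l2 = l1' ++ c' :: l2')
    (h : z - ptz l1 ∈ V c.1) (h' : z - ptz l1' ∈ V c'.1) : l1 = l1' ∧ c = c' ∧ l2 = l2' := by
  have key : ∀ {l1 l2 l1' l2' : List Blk} {c c' : Blk}, l1 ++ c :: l2 = l1' ++ c' :: l2' → z - ptz l1 ∈ V c.1 →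
      z - ptz l1' ∈ V c'.1 → l1'.length ≤ l1.length := by
    intro l1 l2 l1' l2' c c' e h h'
    by_contra hlt
    push Not at hlt
    -- `l1 ++ [c]` is a prefix of `l1'`
    have h1 : l1 ++ [c] <+: l1' := by
      have a1 : l1 ++ [c] <+: l1 ++ c :: l2 := ⟨l2, by simp⟩
      have a2 : l1' <+: l1 ++ c :: l2 := ⟨c' :: l2', e.symm⟩
      refine List.prefix_of_prefix_length_le a1 a2 ?_
      rw [List.length_append, List.length_singleton]
      omega
    obtain ⟨t, ht⟩ := h1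
    have b1 := (c.2.br.1.2 _ h).2
    have b2 := (c'.2.br.1.2 _ h').1
    rw [F0_sub', F0_ptz] at b1 b2
    have hp := htw_pos c.1
    have e1 : hj l1' = hj l1 + htw c.1 + hj t := by
      rw [← ht]
      have := hsI.toAlph.h_append (l1 ++ [c]) t
      have e2 := hsI.toAlph.h_append l1 [c]
      change hj ((l1 ++ [c]) ++ t) = hj (l1 ++ [c]) + hj t at this
      change hj (l1 ++ [c]) = hj l1 + hj [c] at e2
      rw [this, e2]
      simp [hj]
    rw [e1] at b2
    push_cast at b1 b2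
    omega
  have hl : l1.length = l1'.length := le_antisymm (key e.symm h' h) (key e h h')
  obtain ⟨h1, h2⟩ := List.append_inj e hl
  rw [List.cons.injEq] at h2
  exact ⟨h1, h2.1, h2.2⟩

/-- The words through `z`, cut at the block of `z`. -/
theorem sum_at (M : ℕ) (z : ℤ × ℤ) :
    ∑' t : List Blk × Blk × List Blk, ind (hj (t.1 ++ t.2.1 :: t.2.2) ≤ M ∧ z - ptz t.1 ∈ V t.2.1.1) *
      wj (t.1 ++ t.2.1 :: t.2.2) ≤ hsI.U M := by
  rw [← hsI.toAlph.tsum_le M]
  set P : Set (List Blk × Blk × List Blk) := {t | hj (t.1 ++ t.2.1 :: t.2.2) ≤ M ∧ z - ptz t.1 ∈ V t.2.1.1} with hP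
  have e1 : ∑' t : List Blk × Blk × List Blk, ind (hj (t.1 ++ t.2.1 :: t.2.2) ≤ M ∧ z - ptz t.1 ∈ V t.2.1.1) *
      wj (t.1 ++ t.2.1 :: t.2.2) = ∑' t : P, ind (hj (t.1.1 ++ t.1.2.1 :: t.1.2.2) ≤ M) *
      wj (t.1.1 ++ t.1.2.1 :: t.1.2.2) := by
    rw [tsum_subtype P fun t => ind (hj (t.1 ++ t.2.1 :: t.2.2) ≤ M) * wj (t.1 ++ t.2.1 :: t.2.2)]
    refine tsum_congr fun t => ?_
    by_cases ht : t ∈ P
    · have ht' : hj (t.1 ++ t.2.1 :: t.2.2) ≤ M ∧ z - ptz t.1 ∈ V t.2.1.1 := ht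
      rw [Set.indicator_of_mem ht, ind_true ht', ind_true ht'.1]
    · have ht' : ¬ (hj (t.1 ++ t.2.1 :: t.2.2) ≤ M ∧ z - ptz t.1 ∈ V t.2.1.1) := ht
      rw [Set.indicator_of_notMem ht, ind_false ht', zero_mul]
  rw [e1]
  have hinj : Function.Injective (fun t : P => t.1.1 ++ t.1.2.1 :: t.1.2.2) := by
    rintro ⟨⟨l1, c, l2⟩, h1, h2⟩ ⟨⟨l1', c', l2'⟩, h1', h2'⟩ e
    obtain ⟨a, b, d⟩ := split_uniq (z := z) e h2 h2'
    simp only at a b d
    subst a b d
    rfl
  exact ENNReal.tsum_comp_le_tsum_of_injective hinj fun l => ind (hj l ≤ M) * wj l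

/-- The number of the vertices of a block. -/
theorem card_le_box {D : ℕ} {l1 : List Blk} {c : Blk} (h : ∀ u ∈ V c.1, ptz l1 + u ∈ Bx D) :
    ((c.1.length + 1 : ℕ) : ℝ≥0∞) ≤ ∑ z ∈ BxF D, ind (z - ptz l1 ∈ V c.1) := by
  classical
  have hnd : (V c.1).Nodup := c.2.br.1.1
  have hlen : (V c.1).toFinset.card = c.1.length + 1 := by
    rw [List.toFinset_card_of_nodup hnd]
    exact vs_length _ _ _
  have e1 : ∑ z ∈ BxF D, ind (z - ptz l1 ∈ V c.1) = (((BxF D).filter fun z => z - ptz l1 ∈ V c.1).card : ℝ≥0∞) := by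
    rw [Finset.card_eq_sum_ones, Nat.cast_sum, Finset.sum_filter]
    refine Finset.sum_congr rfl fun z _ => ?_
    by_cases hz : z - ptz l1 ∈ V c.1
    · rw [ind_true hz, if_pos hz, Nat.cast_one]
    · rw [ind_false hz, if_neg hz]
  rw [e1, ← hlen]
  have h2 : ((V c.1).toFinset.image fun u => ptz l1 + u) ⊆ (BxF D).filter fun z => z - ptz l1 ∈ V c.1 := by
    intro z hz
    rw [Finset.mem_image] at hz
    obtain ⟨u, hu, rfl⟩ := hz
    rw [List.mem_toFinset] at hu
    rw [Finset.mem_filter]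
    refine ⟨mem_BxF (h u hu), ?_⟩
    rw [add_sub_cancel_left]
    exact hu
  have h3 := Finset.card_le_card h2
  rw [Finset.card_image_of_injective _ (add_right_injective _)] at h3
  exact_mod_cast h3

theorem marea : MArea := by
  obtain ⟨C1, hC1, hn⟩ := narrow
  refine ⟨C1 * (62 * 400 ^ 2), fun R hR => ?_⟩
  have hU0 : hsI.U R ≠ 0 := hsI.toAlph.U_ne_zero R
  have hU1 : hsI.U R ≠ ⊤ := hsI.toAlph.U_ne_top R
  -- the triple sum
  have main : (∑' l1 : List Blk, ind (hj l1 ≤ R ∧ VL l1 ⊆ Bx R ∧ ptz l1 ∈ Bx R ∧ ln l1 ≤ C1 * R ^ 2) * wj l1) *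
      (MM R * hsI.U R) ≤ ((6 * (61 * R) + 1) ^ 2 : ℕ) * hsI.U (62 * R) := by
    have s1 : (∑' l1 : List Blk, ind (hj l1 ≤ R ∧ VL l1 ⊆ Bx R ∧ ptz l1 ∈ Bx R ∧ ln l1 ≤ C1 * R ^ 2) * wj l1) *
        (MM R * hsI.U R) = ∑' t : List Blk × Blk × List Blk,
          (ind (hj t.1 ≤ R ∧ VL t.1 ⊆ Bx R ∧ ptz t.1 ∈ Bx R ∧ ln t.1 ≤ C1 * R ^ 2) * wj t.1) *
          ((ind (szB t.2.1 ≤ 60 * R) * (xE ^ (t.2.1.1.length + 1) * (t.2.1.1.length + 1 : ℕ))) *
            (ind (hj t.2.2 ≤ R) * wj t.2.2)) := by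
      rw [← hsI.toAlph.tsum_le R]
      rw [ENNReal.tsum_prod', ← ENNReal.tsum_mul_right]
      refine tsum_congr fun l1 => ?_
      simp only
      rw [ENNReal.tsum_mul_left]
      congr 1
      rw [ENNReal.tsum_prod']
      unfold MM
      rw [← ENNReal.tsum_mul_right]
      refine tsum_congr fun c => ?_
      simp only
      rw [ENNReal.tsum_mul_left]
      rfl
    rw [s1]
    calc _ ≤ ∑' t : List Blk × Blk × List Blk, ∑ z ∈ BxF (61 * R),
          ind (hj (t.1 ++ t.2.1 :: t.2.2) ≤ 62 * R ∧ z - ptz t.1 ∈ V t.2.1.1) * wj (t.1 ++ t.2.1 :: t.2.2) := by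
          refine ENNReal.tsum_le_tsum ?_
          rintro ⟨l1, c, l2⟩
          simp only
          by_cases h1 : hj l1 ≤ R ∧ VL l1 ⊆ Bx R ∧ ptz l1 ∈ Bx R ∧ ln l1 ≤ C1 * R ^ 2
          · by_cases h2 : szB c ≤ 60 * R
            · by_cases h3 : hj l2 ≤ R
              · rw [ind_true h1, ind_true h2, ind_true h3, one_mul, one_mul, one_mul]
                have hh : hj (l1 ++ c :: l2) ≤ 62 * R := by
                  have e := hsI.toAlph.h_append l1 (c :: l2)
                  have e' := hsI.toAlph.h_cons c l2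
                  change hj (l1 ++ c :: l2) = hj l1 + hj (c :: l2) at e
                  change hj (c :: l2) = htw c.1 + hj l2 at e'
                  have h4 : htw c.1 ≤ szB c := le_max_left _ _
                  omega
                have hw : wj (l1 ++ c :: l2) = wj l1 * (xE ^ (c.1.length + 1) * wj l2) := by
                  have e := hsI.toAlph.w_append l1 (c :: l2)
                  have e' := hsI.toAlph.w_cons c l2
                  change wj (l1 ++ c :: l2) = wj l1 * wj (c :: l2) at e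
                  change wj (c :: l2) = xE ^ (c.1.length + 1) * wj l2 at e'
                  rw [e, e']
                have hb : ((c.1.length + 1 : ℕ) : ℝ≥0∞) ≤ ∑ z ∈ BxF (61 * R), ind (z - ptz l1 ∈ V c.1) := by
                  refine card_le_box fun u hu => ?_
                  obtain ⟨b1, b2⟩ := h1.2.2.1
                  rw [abs_le] at b1 b2
                  have f1 := c.2.br.1.2 u hu
                  have f2 : htw c.1 ≤ szB c := le_max_left _ _
                  have f3 : wdb c ≤ szB c := le_max_right _ _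
                  have f4 := wdb_le c hu (w := (0, 0)) (head_mem _ _ _)
                  have f5 : |u.2 - (0 : ℤ)| + 2 ≤ wdb c := f4
                  rw [sub_zero] at f5
                  have f6 : |u.2| ≤ 60 * (R : ℤ) := by
                    have : (wdb c : ℤ) ≤ 60 * (R : ℤ) := by exact_mod_cast f3.trans h2
                    linarith
                  rw [abs_le] at f6
                  have f7 := htw_pos c.1
                  constructor
                  · rw [F0_add, abs_le]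
                    push_cast
                    omega
                  · rw [Prod.snd_add, abs_le]
                    push_cast
                    omega
                have e2 : ∀ z, ind (hj (l1 ++ c :: l2) ≤ 62 * R ∧ z - ptz l1 ∈ V c.1) = ind (z - ptz l1 ∈ V c.1) :=
                  fun z => ind_congr ⟨fun h => h.2, fun h => ⟨hh, h⟩⟩
                simp_rw [e2]
                rw [← Finset.sum_mul, hw]
                calc wj l1 * (xE ^ (c.1.length + 1) * ((c.1.length + 1 : ℕ) : ℝ≥0∞) * wj l2)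
                    = ((c.1.length + 1 : ℕ) : ℝ≥0∞) * (wj l1 * (xE ^ (c.1.length + 1) * wj l2)) := by ring
                  _ ≤ _ := mul_le_mul' hb le_rfl
              · rw [ind_false h3, zero_mul, mul_zero, mul_zero]
                exact zero_le
            · rw [ind_false h2, zero_mul, zero_mul, mul_zero]
              exact zero_le
          · rw [ind_false h1, zero_mul, zero_mul]
            exact zero_le
      _ = ∑ z ∈ BxF (61 * R), ∑' t : List Blk × Blk × List Blk,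
          ind (hj (t.1 ++ t.2.1 :: t.2.2) ≤ 62 * R ∧ z - ptz t.1 ∈ V t.2.1.1) * wj (t.1 ++ t.2.1 :: t.2.2) :=
          Summable.tsum_finsetSum fun _ _ => ENNReal.summable
      _ ≤ ∑ _z ∈ BxF (61 * R), hsI.U (62 * R) := Finset.sum_le_sum fun z _ => sum_at (62 * R) z
      _ = ((BxF (61 * R)).card : ℝ≥0∞) * hsI.U (62 * R) := by rw [Finset.sum_const, nsmul_eq_mul]
      _ ≤ _ := by
          refine mul_le_mul' ?_ le_rfl
          exact_mod_cast card_BxF (61 * R)
  -- the constants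
  have k1 : hsI.U (62 * R) ≤ 62 * hsI.U R := by
    have := hsI.toAlph.U_mul_nat hsI_anti 62 R (by norm_num)
    exact_mod_cast this
  have k2 : (((6 * (61 * R) + 1) ^ 2 : ℕ) : ℝ≥0∞) ≤ ((400 ^ 2 * R ^ 2 : ℕ) : ℝ≥0∞) := by
    have : (6 * (61 * R) + 1) ^ 2 ≤ 400 ^ 2 * R ^ 2 := by
      rw [← mul_pow]
      exact Nat.pow_le_pow_left (by omega) 2
    exact_mod_cast this
  have k3 : hsI.U R * (MM R * hsI.U R) ≤ (C1 * (62 * 400 ^ 2) * R ^ 2 : ℕ) * hsI.U R := by
    calc hsI.U R * (MM R * hsI.U R)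
        ≤ (C1 * ∑' l1 : List Blk, ind (hj l1 ≤ R ∧ VL l1 ⊆ Bx R ∧ ptz l1 ∈ Bx R ∧ ln l1 ≤ C1 * R ^ 2) * wj l1) *
          (MM R * hsI.U R) := mul_le_mul' (hn R hR) le_rfl
      _ = C1 * ((∑' l1 : List Blk, ind (hj l1 ≤ R ∧ VL l1 ⊆ Bx R ∧ ptz l1 ∈ Bx R ∧ ln l1 ≤ C1 * R ^ 2) * wj l1) *
          (MM R * hsI.U R)) := by rw [mul_assoc]
      _ ≤ C1 * ((400 ^ 2 * R ^ 2 : ℕ) * (62 * hsI.U R)) :=
          mul_le_mul' le_rfl (main.trans (mul_le_mul' k2 k1))
      _ = _ := by push_cast; ring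
  have k4 : MM R * hsI.U R ≤ (C1 * (62 * 400 ^ 2) * R ^ 2 : ℕ) := by
    have h : (MM R * hsI.U R) * hsI.U R ≤ (C1 * (62 * 400 ^ 2) * R ^ 2 : ℕ) * hsI.U R := by
      rw [mul_comm]
      exact k3
    exact (ENNReal.mul_le_mul_iff_left hU0 hU1).1 h
  have k5 : (R : ℝ≥0∞) * hsI.b R ≤ hsI.U R := by
    have h1 : ∀ k ∈ Finset.range R, hsI.b R ≤ hsI.b k := fun k hk => hsI_anti (Finset.mem_range.1 hk).le
    calc (R : ℝ≥0∞) * hsI.b R = ∑ _k ∈ Finset.range R, hsI.b R := by
          rw [Finset.sum_const, Finset.card_range, nsmul_eq_mul]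
      _ ≤ ∑ k ∈ Finset.range R, hsI.b k := Finset.sum_le_sum h1
      _ ≤ hsI.U R := Finset.sum_le_sum_of_subset (Finset.range_subset_range.2 (Nat.le_succ R))
  have hR0 : (R : ℝ≥0∞) ≠ 0 := by exact_mod_cast (by omega : R ≠ 0)
  have hR1 : (R : ℝ≥0∞) ≠ ⊤ := ENNReal.natCast_ne_top R
  have k6 : (MM R * hsI.b R) * R ≤ (((C1 * (62 * 400 ^ 2) : ℕ) : ℝ≥0∞) * R) * R := by
    calc (MM R * hsI.b R) * R = MM R * (R * hsI.b R) := by ring
      _ ≤ MM R * hsI.U R := mul_le_mul' le_rfl k5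
      _ ≤ _ := k4
      _ = _ := by push_cast; ring
  exact (ENNReal.mul_le_mul_iff_left hR0 hR1).1 k6

set_option linter.unusedVariables false in
theorem area_of (hn : ∃ (K : ℕ) (c : ℝ≥0∞), 1 ≤ K ∧ 0 < c ∧ ∀ R D π : ℕ, 1 ≤ R → K * R ≤ D → π < 2 →
    c * hsI.U R ≤ ∑ h ∈ (Finset.Icc D (2 * D)).filter (fun h => h % 2 = π), nw ((D : ℝ) / 16) h) : MArea :=
  marea

end Pool.Agent.EVN
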