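import Pool.Agent.EVN.M.Def

/-!
Project EVN, block M, module ArmR: the paths of the hexagon `Hx N` from the right side to `z = v + τ` are arms from `v` (after the translation by `- τ`).

PROOF. `P ∈ aF N z e n`, `e ∈ bdR N`: `P = z :: .. :: e.1 :: [e.2]` (`RTA.mem_sw`, `IsW`): `n + 2` vertices, all but the last one in `Hx N`, `F0 e.2 = 3 N + 3`.
Put `η = (P.map (· - τ)).reverse`: `η = y :: η'`, `y = e.2 - τ`, `F0 y = 3 N + 3 - F0 τ = 3 Q`, last element `z - τ = v`; `hon` is preserved because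
`(τ.1 - τ.2) % 3 = 0`, `HChain` is symmetric. For `x ∈ η'`, `x + τ ∈ Hx N`: `F0 (x + τ) ≤ 3 N + 1 < 3 N + 3`; `|F0 (x + τ)| ≤ 3 N + 1`, `3 (x + τ).2 = F1 + F2 ≤ 6 N + 2`
and `- 3 (x + τ).2 = F4 + F5 ≤ 6 N + 2`, so `x ∈ Bx D`. The map is injective in `(e, n, P)`: `P` determines `e` (its last two elements) and `n` (its length).
`xE ^ (η.length - 1) = xE ^ (n + 1)`. The real sum `ZaR` is finite with nonnegative terms: `ENNReal.ofReal` of it is the sum.
-/

namespace Pool.Agent.EVN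

open Pool.Agent.Hhelper14.SAW Pool.Agent.HHP Pool.Agent.HEP Pool.Agent.PLY.G Pool.Agent.RTA
open scoped ENNReal

private lemma ArmR_hchain {τ : ℤ × ℤ} (hτ : (τ.1 - τ.2) % 3 = 0) {P : List (ℤ × ℤ)} (h : HChain P) :
    HChain (P.map fun z => z - τ) := by
  unfold HChain
  rw [List.isChain_map]
  refine List.IsChain.imp (fun x z h => ?_) h
  obtain ⟨h1, h2, h3⟩ := h
  refine ⟨?_, ?_, ?_⟩
  · simp only [hon, Prod.fst_sub, Prod.snd_sub] at *
    omega
  · simp only [hon, Prod.fst_sub, Prod.snd_sub] at *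
    omega
  · rw [sub_sub_sub_cancel_right]
    exact h3

private lemma ArmR_rev {P : List (ℤ × ℤ)} (h : HChain P) : HChain P.reverse := by
  unfold HChain
  rw [List.isChain_reverse]
  exact List.IsChain.imp (fun _ _ h => h.symm) h

/-- the arm of the path -/
private def ArmR_f (τ : ℤ × ℤ) (P : List (ℤ × ℤ)) : List (ℤ × ℤ) := (P.map fun z => z - τ).reverse

private lemma ArmR_f_inj {τ : ℤ × ℤ} {P P' : List (ℤ × ℤ)} (h : ArmR_f τ P = ArmR_f τ P') : P = P' := by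
  unfold ArmR_f at h
  have h1 := List.reverse_injective h
  exact List.map_injective_iff.2 (fun x y hxy => sub_left_injective hxy) h1

private lemma ArmR_data {N : ℕ} {z : ℤ × ℤ} {e : (ℤ × ℤ) × (ℤ × ℤ)} {n : ℕ} {P : List (ℤ × ℤ)} (he : e ∈ bdR N)
    (hP : P ∈ aF N z e n) : IsW (Hx N) e.1 e.2 n P ∧ P.headI = z ∧ F0 e.2 = 3 * N + 3 := by
  unfold bdR at he
  rw [Finset.mem_filter] at he
  obtain ⟨h1, h2, h3⟩ := he
  unfold aF at hP
  rw [Finset.mem_filter, mem_sw (bdry_bd h1)] at hP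
  refine ⟨hP.1, hP.2, ?_⟩
  rw [h2]
  simp only [F0, Prod.fst_add, Prod.snd_add] at *
  omega

private lemma ArmR_mem {N D Q : ℕ} {v τ : ℤ × ℤ} (hτ : (τ.1 - τ.2) % 3 = 0) (hQ : F0 τ = 3 * (N + 1 - Q : ℤ))
    (h1 : |F0 τ| ≤ 3 * N) (h2 : |τ.2| ≤ N) (hD : 2 * N + 1 ≤ D) {e : (ℤ × ℤ) × (ℤ × ℤ)} {n : ℕ} {P : List (ℤ × ℤ)}
    (he : e ∈ bdR N) (hP : P ∈ aF N (v + τ) e n) :
    ArmR_f τ P ∈ AR v D Q ∧ (ArmR_f τ P).length - 1 = n + 1 := by
  obtain ⟨⟨hl, hN, hC, t, ht, hin⟩, hh, hF⟩ := ArmR_data he hP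
  have hrev : ArmR_f τ P = (e.2 - τ) :: ((t ++ [e.1]).map fun z => z - τ).reverse := by
    unfold ArmR_f
    rw [ht]
    simp
  refine ⟨⟨e.2 - τ, ((t ++ [e.1]).map fun z => z - τ).reverse, hrev, ?_, ?_, ?_, ?_, ?_, ?_⟩, ?_⟩
  · unfold ArmR_f
    rw [List.getLast?_reverse]
    cases P with
    | nil => simp at hl
    | cons a r =>
      rw [List.map_cons, List.head?_cons]
      have ha : a = v + τ := hh
      rw [ha, add_sub_cancel_right]
  · unfold ArmR_f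
    rw [List.nodup_reverse]
    exact hN.map fun x y hxy => sub_left_injective hxy
  · exact ArmR_rev (ArmR_hchain hτ hC)
  · simp only [F0, Prod.fst_sub, Prod.snd_sub] at *
    omega
  · simp
  · intro x hx
    rw [List.mem_reverse, List.mem_map] at hx
    obtain ⟨w, hw, rfl⟩ := hx
    have hH := hin w hw
    obtain ⟨-, g0, g1, g2, g3, g4, g5⟩ := hH
    have hD' : (2 * N + 1 : ℤ) ≤ D := by exact_mod_cast hD
    rw [abs_le] at h1 h2
    simp only [Bx, Set.mem_ofPred_eq, F0, F1, F2, F3, F4, F5, Prod.fst_sub, Prod.snd_sub, abs_le] at *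
    omega
  · unfold ArmR_f
    rw [List.length_reverse, List.length_map, hl]
    rfl

theorem ZaR_le {N D Q : ℕ} {v τ : ℤ × ℤ} (hτ : (τ.1 - τ.2) % 3 = 0) (hQ : F0 τ = 3 * (N + 1 - Q : ℤ)) (h1 : |F0 τ| ≤ 3 * N)
    (h2 : |τ.2| ≤ N) (hD : 2 * N + 1 ≤ D) : ENNReal.ofReal (ZaR N (v + τ)) ≤ aA v D Q := by
  classical
  have hx : 0 ≤ xc := xc_pos.le
  have hE : ENNReal.ofReal (ZaR N (v + τ)) =
      ∑ e ∈ bdR N, ∑ n ∈ Finset.range (Bn N), ∑ _P ∈ aF N (v + τ) e n, xE ^ (n + 1) := by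
    unfold ZaR
    rw [ENNReal.ofReal_sum_of_nonneg fun e _ => Finset.sum_nonneg fun n _ =>
      Finset.sum_nonneg fun P _ => pow_nonneg hx _]
    refine Finset.sum_congr rfl fun e _ => ?_
    rw [ENNReal.ofReal_sum_of_nonneg fun n _ => Finset.sum_nonneg fun P _ => pow_nonneg hx _]
    refine Finset.sum_congr rfl fun n _ => ?_
    rw [ENNReal.ofReal_sum_of_nonneg fun P _ => pow_nonneg hx _]
    refine Finset.sum_congr rfl fun P _ => ?_
    unfold xE
    rw [ENNReal.ofReal_pow hx]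
  rw [hE]
  let S : Finset (((ℤ × ℤ) × (ℤ × ℤ)) × ℕ × List (ℤ × ℤ)) :=
    (bdR N).biUnion fun e => (Finset.range (Bn N)).biUnion fun n => (aF N (v + τ) e n).image fun P => (e, n, P)
  have hS : ∀ x, x ∈ S ↔ x.1 ∈ bdR N ∧ x.2.1 ∈ Finset.range (Bn N) ∧ x.2.2 ∈ aF N (v + τ) x.1 x.2.1 := by
    rintro ⟨e, n, P⟩
    simp only [S, Finset.mem_biUnion, Finset.mem_image, Prod.mk.injEq]
    constructor
    · rintro ⟨e', he', n', hn', P', hP', rfl, rfl, rfl⟩
      exact ⟨he', hn', hP'⟩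
    · rintro ⟨he, hn, hP⟩
      exact ⟨e, he, n, hn, P, hP, rfl, rfl, rfl⟩
  have hsum : ∑ e ∈ bdR N, ∑ n ∈ Finset.range (Bn N), ∑ _P ∈ aF N (v + τ) e n, xE ^ (n + 1) =
      ∑ x ∈ S, xE ^ (x.2.1 + 1) := by
    simp only [S]
    rw [Finset.sum_biUnion]
    · refine Finset.sum_congr rfl fun e _ => ?_
      rw [Finset.sum_biUnion]
      · refine Finset.sum_congr rfl fun n _ => ?_
        rw [Finset.sum_image]
        intro P _ P' _ h
        simpa using h
      · intro n _ n' _ hnn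
        rw [Function.onFun, Finset.disjoint_left]
        rintro x hx1 hx2
        rw [Finset.mem_image] at hx1 hx2
        obtain ⟨P, -, rfl⟩ := hx1
        obtain ⟨P', -, h'⟩ := hx2
        simp only [Prod.mk.injEq] at h'
        exact hnn h'.2.1.symm
    · intro e _ e' _ hee
      rw [Function.onFun, Finset.disjoint_left]
      rintro x hx1 hx2
      simp only [Finset.mem_biUnion, Finset.mem_image] at hx1 hx2
      obtain ⟨n, -, P, -, rfl⟩ := hx1
      obtain ⟨n', -, P', -, h'⟩ := hx2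
      simp only [Prod.mk.injEq] at h'
      exact hee h'.1.symm
  rw [hsum, ← Finset.tsum_subtype S fun x => xE ^ (x.2.1 + 1)]
  have hmem : ∀ x : S, ArmR_f τ x.1.2.2 ∈ AR v D Q ∧ (ArmR_f τ x.1.2.2).length - 1 = x.1.2.1 + 1 := fun x =>
    ArmR_mem hτ hQ h1 h2 hD ((hS x.1).1 x.2).1 ((hS x.1).1 x.2).2.2
  let g : S → AR v D Q := fun x => ⟨ArmR_f τ x.1.2.2, (hmem x).1⟩
  have hg : Function.Injective g := by
    intro x x' hxx
    have h3 : ArmR_f τ x.1.2.2 = ArmR_f τ x'.1.2.2 := congrArg Subtype.val hxx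
    have h4 := ArmR_f_inj h3
    obtain ⟨hl, -, -, t, ht, -⟩ := (ArmR_data ((hS x.1).1 x.2).1 ((hS x.1).1 x.2).2.2).1
    obtain ⟨hl', -, -, t', ht', -⟩ := (ArmR_data ((hS x'.1).1 x'.2).1 ((hS x'.1).1 x'.2).2.2).1
    have h5 : x.1.2.1 = x'.1.2.1 := by
      rw [h4] at hl
      omega
    have h6 : x.1.1 = x'.1.1 := by
      have h7 : t ++ [x.1.1.1, x.1.1.2] = t' ++ [x'.1.1.1, x'.1.1.2] := by rw [← ht, ← ht', h4]
      have h8 := (List.append_inj' h7 rfl).2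
      simp only [List.cons.injEq, and_true] at h8
      exact Prod.ext h8.1 h8.2
    exact Subtype.ext (Prod.ext h6 (Prod.ext h5 h4))
  have h9 : ∀ x : S, xE ^ (x.1.2.1 + 1) = xE ^ ((g x).1.length - 1) := fun x => by
    rw [show (g x).1.length - 1 = x.1.2.1 + 1 from (hmem x).2]
  simp only [h9]
  exact ENNReal.tsum_comp_le_tsum_of_injective hg fun η : AR v D Q => xE ^ (η.1.length - 1)

end Pool.Agent.EVN
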