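import Pool.Agent.EVN.M.Def
import Pool.Agent.RAT.U.Dec

/-!
Project EVN, block M, module Emb: marked words are paths of the hexagon through `z`.

PROOF. For `(l1, c, l2, u)` with `MkH N z l1 c l2 u` let `l = l1 ++ c :: l2`, `s = z - (ptz l1 + u)` (`hon` is preserved: `z` and `ptz l1 + u` are `hon` and
`F0 (ptz l1 + u) - F0 z` is a multiple of `3`). The path is the list `Q = (s - (1,0)) :: (V (jn l)).map (· + s) ++ [E (jn l) + s + (1,0)]` (read from its head it is the
word walked from left to right; as a list `latest vertex first` it is the path from the right side to the left side): `Q ∈ pF N z (E (jn l) + s, E (jn l) + s + (1,0)) n`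
with `n + 2 = (V (jn l)).length + 1 = Q.length - 1`. Every vertex `w + s`, `w ∈ V (jn l)`: `- 3 N ≤ F0 (w + s) ≤ 3 N + 1` (`jn l` is a bridge of `2 N + 1` columns) and
`|(w + s).2| ≤ N`, so `Hx N (w + s)`: `F1 = (F0 + 3 b)/2`, etc. `F0 (E (jn l) + s) = 3 N + 1`, so the edge is in `bdR N`. The map is injective: `Q` gives `s`, `V (jn l)`,
so `jn l` (`toL_inj`), `l` (unique decomposition into blocks, HEP: `jn` is injective), `ptz l1 + u = z - s`, and this vertex of `jn l` lies in exactly one block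
(`mem_jn`; the blocks occupy disjoint columns). `xc ^ (n + 2) = xE * wj l`.
-/

namespace Pool.Agent.EVN

open Pool.Agent.Hhelper14.SAW Pool.Agent.HHP Pool.Agent.HEP Pool.Agent.PLY.G Pool.Agent.RTA
open scoped ENNReal

/-- The path of a bridge word with its two connecting steps, shifted by `s`. -/
def QpE (s : ℤ × ℤ) (W : List Bool) : List (ℤ × ℤ) := (o' :: (V W ++ [E W + (1, 0)])).map (· + s)

lemma Emb_hon {s x : ℤ × ℤ} (hs : (s.1 - s.2) % 3 = 0) : hon (x + s) ↔ hon x := by
  unfold hon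
  simp only [Prod.fst_add, Prod.snd_add]
  omega

lemma Emb_adj {s x y : ℤ × ℤ} (hs : (s.1 - s.2) % 3 = 0) : Adj (x + s) (y + s) ↔ Adj x y := by
  unfold Adj
  rw [Emb_hon hs, Emb_hon hs, add_sub_add_right_eq_sub]

lemma Emb_chain {W : List Bool} {k : ℕ} (h : Br k W) : HChain (o' :: (V W ++ [E W + (1, 0)])) := by
  have h1 : HChain (toL W) := (isSaw_toL Pool.Agent.RAT.half_dom h.1.1 fun z hz => ⟨V_hon hz, (h.1.2 z hz).1⟩).2.2.1
  have h2 : HChain (o' :: V W) := by
    have h3 : HChain (toL W).reverse := List.isChain_reverse.2 (List.IsChain.imp (fun _ _ hh => hh.symm) h1)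
    unfold toL at h3
    rwa [List.reverse_append, List.reverse_reverse] at h3
  have h4 : o' :: (V W ++ [E W + (1, 0)]) = (o' :: V W) ++ [E W + (1, 0)] := rfl
  rw [h4]
  unfold HChain at h2 ⊢
  rw [List.isChain_append]
  refine ⟨h2, List.isChain_singleton _, ?_⟩
  intro x hx y hy
  have hl : (o' :: V W).getLast? = some (E W) := by
    have h5 : (V W).getLast? = some (E W) := vs_getLast? _ _ _
    rw [List.getLast?_cons, h5]
    rfl
  rw [hl] at hx
  simp only [Option.mem_def, Option.some.injEq, List.head?_cons] at hx hy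
  rw [← hx, ← hy]
  have hE := V_hon (E_mem W)
  have hF := h.2
  refine ⟨hE, ?_, ?_⟩
  · unfold hon at hE ⊢
    unfold F0 at hF
    simp only [Prod.fst_add, Prod.snd_add]
    omega
  · have : E W - (E W + (1, 0)) = (-1, 0) := by ring_nf; rfl
    rw [this]
    decide

lemma Emb_nodup {W : List Bool} {k : ℕ} (h : Br k W) : (V W ++ [E W + (1, 0)]).Nodup := by
  rw [List.nodup_append]
  refine ⟨h.1.1, by simp, ?_⟩
  intro a ha b hb hab
  rw [List.mem_singleton] at hb
  have h1 := (h.1.2 a ha).2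
  rw [hab, hb, F0_add, h.2] at h1
  simp only [F0] at h1
  omega

lemma Emb_hx {N : ℕ} {x : ℤ × ℤ} (h1 : hon x) (h2 : - (3 * (N : ℤ)) ≤ F0 x) (h3 : F0 x ≤ 3 * N + 1) (h4 : |x.2| ≤ N) :
    Hx N x := by
  rw [abs_le] at h4
  unfold Hx
  refine ⟨h1, ?_, ?_, ?_, ?_, ?_, ?_⟩ <;> simp only [F0, F1, F2, F3, F4, F5] at * <;> omega

/-- The word of a bridge of `2 N + 1` columns, put into the hexagon. -/
lemma Emb_isC {N : ℕ} {W : List Bool} {s : ℤ × ℤ} (h : Br (2 * N) W) (hs : (s.1 - s.2) % 3 = 0) (hF : F0 s = - (3 * (N : ℤ)))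
    (hl : ∀ w ∈ V W, |(w + s).2| ≤ N) :
    (E W + s, E W + s + (1, 0)) ∈ bdR N ∧ IsC (Hx N) (E W + s) (E W + s + (1, 0)) W.length (QpE s W) ∧
      ¬ Hx N (QpE s W).headI := by
  have hx : ∀ w ∈ V W, Hx N (w + s) := by
    intro w hw
    have h1 := h.1.2 w hw
    refine Emb_hx ((Emb_hon hs).2 (V_hon hw)) ?_ ?_ (hl w hw)
    · rw [F0_add, hF]; omega
    · rw [F0_add, hF]; push_cast at h1; omega
  have hE := hx _ (E_mem W)
  have hFE : F0 (E W + s) = 3 * N + 1 := by
    rw [F0_add, hF, h.2]; push_cast; ring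
  have hnot : ¬ Hx N (E W + s + (1, 0)) := by
    rintro ⟨-, h1, -⟩
    rw [F0_add, hFE] at h1
    simp only [F0] at h1
    omega
  have hC := Emb_chain h
  have hCs : HChain (QpE s W) := by
    unfold QpE HChain
    rw [List.isChain_map]
    exact List.IsChain.imp (fun _ _ hh => (Emb_adj hs).2 hh) hC
  have hne : W ≠ [] := by
    rintro rfl
    have := h.2
    simp only [E_nil, F0] at this
    push_cast at this
    omega
  obtain ⟨b, W', rfl⟩ := List.exists_cons_of_ne_nil hne
  have hV : V (b :: W') = (0, 0) :: vs ((0, 0) + tn b (1, 0)) (tn b (1, 0)) W' := rfl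
  obtain ⟨w2, rest, hrest⟩ : ∃ w2 rest, vs ((0, 0) + tn b (1, 0)) (tn b (1, 0)) W' = w2 :: rest ∧
      w2 = (0, 0) + tn b (1, 0) := by
    have h1 := vs_head? ((0, 0) + tn b (1, 0)) (tn b (1, 0)) W'
    rcases hvs : vs ((0, 0) + tn b (1, 0)) (tn b (1, 0)) W' with _ | ⟨a, r⟩
    · exact absurd hvs (vs_ne _ _ _)
    · rw [hvs] at h1
      simp only [List.head?_cons, Option.some.injEq] at h1
      exact ⟨a, r, rfl, h1⟩
  have hQ : QpE s (b :: W') = (o' + s) :: ((0, 0) + s) :: (w2 + s) :: (rest ++ [E (b :: W') + (1, 0)]).map (· + s) := by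
    unfold QpE
    rw [hV, hrest.1]
    simp
  refine ⟨?_, ?_, ?_⟩
  · unfold bdR
    rw [Finset.mem_filter, mem_bdry]
    refine ⟨⟨hE, ?_, hnot⟩, rfl, hFE⟩
    have h1 : Adj (E (b :: W')) (E (b :: W') + (1, 0)) := by
      unfold HChain at hC
      have h4 : o' :: (V (b :: W') ++ [E (b :: W') + (1, 0)]) = (o' :: V (b :: W')) ++ [E (b :: W') + (1, 0)] := rfl
      rw [h4, List.isChain_append] at hC
      refine hC.2.2 _ ?_ _ rfl
      have h5 : (V (b :: W')).getLast? = some (E (b :: W')) := vs_getLast? _ _ _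
      rw [List.getLast?_cons, h5]
      rfl
    have h2 := (Emb_adj hs).2 h1
    show Adj (E (b :: W') + s) (E (b :: W') + s + (1, 0))
    rwa [add_right_comm] at h2
  · refine ⟨o' + s, (0, 0) + s, w2 + s, (rest ++ [E (b :: W') + (1, 0)]).map (· + s), hQ, ?_, ?_, ?_⟩
    · have hT : ((0, 0) + s) :: (w2 + s) :: (rest ++ [E (b :: W') + (1, 0)]).map (· + s) =
          (V (b :: W') ++ [E (b :: W') + (1, 0)]).map (· + s) := by
        rw [hV, hrest.1]
        simp
      rw [hT]
      refine ⟨?_, ?_, ?_, ?_⟩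
      · rw [List.length_map, List.length_append]
        have : (V (b :: W')).length = (b :: W').length + 1 := vs_length _ _ _
        rw [this]
        rfl
      · exact (Emb_nodup h).map (fun x y hxy => add_right_cancel hxy)
      · unfold QpE at hCs
        rw [List.map_cons] at hCs
        exact (List.isChain_cons.1 hCs).2
      · have h5 : (V (b :: W')).getLast? = some (E (b :: W')) := vs_getLast? _ _ _
        have h6 : V (b :: W') = (V (b :: W')).dropLast ++ [E (b :: W')] := by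
          have hne' : V (b :: W') ≠ [] := by rw [hV]; simp
          rw [List.getLast?_eq_getLast_of_ne_nil hne', Option.some.injEq] at h5
          conv_lhs => rw [← List.dropLast_append_getLast hne', h5]
        refine ⟨((V (b :: W')).dropLast).map (· + s), ?_, ?_⟩
        · conv_lhs => rw [h6]
          simp only [List.map_append, List.append_assoc, List.map_cons, List.map_nil, List.cons_append,
            List.nil_append]
          rw [add_right_comm]
        · intro x hx'
          have h7 : ((V (b :: W')).dropLast).map (· + s) ++ [E (b :: W') + s] = (V (b :: W')).map (· + s) := by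
            conv_rhs => rw [h6]
            simp
          rw [h7] at hx'
          obtain ⟨w, hw, rfl⟩ := List.mem_map.1 hx'
          exact hx w hw
    · rw [hQ] at hCs
      exact (List.isChain_cons_cons.1 hCs).1
    · intro he
      have h1 : o' = w2 := add_right_cancel he
      rw [hrest.2] at h1
      cases b
      · simp [tn, o', R] at h1
      · simp [tn, o', L] at h1
  · rw [hQ]
    rintro ⟨-, -, -, -, h1, -⟩
    simp only [List.headI_cons] at h1
    have h2 : F3 (o' + s) = - F0 o' - F0 s := by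
      simp only [F3, F0, Prod.fst_add, Prod.snd_add]; ring
    rw [h2, hF] at h1
    have h3 : F0 o' = -2 := by decide
    rw [h3] at h1
    omega

lemma Emb_inj {s s' : ℤ × ℤ} {W W' : List Bool} (h : QpE s W = QpE s' W') : s = s' ∧ W = W' := by
  unfold QpE at h
  rw [List.map_cons, List.map_cons, List.cons.injEq] at h
  have hs : s = s' := add_left_cancel h.1
  subst hs
  refine ⟨rfl, ?_⟩
  have h2 := h.2
  have h3 : V W ++ [E W + (1, 0)] = V W' ++ [E W' + (1, 0)] :=
    List.map_injective_iff.2 (fun x y hxy => add_right_cancel hxy) h2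
  have h4 : V W = V W' := by
    have := congrArg List.dropLast h3
    rwa [List.dropLast_concat, List.dropLast_concat] at this
  apply toL_inj
  unfold toL
  rw [h4]

/-- The marked vertex determines its block. -/
lemma Emb_mark {l1 l1' l2 l2' : List Blk} {c c' : Blk} {u u' : ℤ × ℤ} (hu : u ∈ V c.1) (hu' : u' ∈ V c'.1)
    (h : l1 ++ c :: l2 = l1' ++ c' :: l2') (hp : ptz l1 + u = ptz l1' + u') : l1 = l1' ∧ c = c' ∧ l2 = l2' ∧ u = u' := by
  have hF : 3 * (hj l1 : ℤ) + F0 u = 3 * hj l1' + F0 u' := by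
    have := congrArg F0 hp
    rwa [F0_add, F0_add, F0_ptz, F0_ptz] at this
  have b1 := c.2.br.1.2 u hu
  have b2 := c'.2.br.1.2 u' hu'
  have p1 := htw_pos c.1
  have p2 := htw_pos c'.1
  have key : l1 = l1' := by
    rcases List.append_eq_append_iff.1 h with ⟨t, h1, h2⟩ | ⟨t, h1, h2⟩
    · cases t with
      | nil => simpa using h1.symm
      | cons a t =>
        exfalso
        rw [List.cons_append, List.cons.injEq] at h2
        have h3 : hj l1' = hj l1 + (htw c.1 + hj t) := by
          rw [h1, hj_append, hj_cons, h2.1]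
        omega
    · cases t with
      | nil => simpa using h1
      | cons a t =>
        exfalso
        rw [List.cons_append, List.cons.injEq] at h2
        have h3 : hj l1 = hj l1' + (htw c'.1 + hj t) := by
          rw [h1, hj_append, hj_cons, h2.1]
        omega
  subst key
  have h1 := List.append_cancel_left h
  rw [List.cons.injEq] at h1
  exact ⟨rfl, h1.1, h1.2, add_left_cancel hp⟩

/-- The target of the embedding. -/
noncomputable def Emb_g (N : ℕ) (z : ℤ × ℤ) (t : ((ℤ × ℤ) × (ℤ × ℤ)) × ℕ × List (ℤ × ℤ)) : ℝ≥0∞ :=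
  ind (t.1 ∈ bdR N ∧ t.2.1 ∈ Finset.range (Bn N) ∧ t.2.2 ∈ pF N z t.1 t.2.1) * xE ^ (t.2.1 + 2)

lemma Emb_tsum_ind {α : Type*} (s : Finset α) (f : α → ℝ≥0∞) : ∑' a, ind (a ∈ s) * f a = ∑ a ∈ s, f a := by
  rw [tsum_eq_sum (s := s)]
  · refine Finset.sum_congr rfl fun a ha => ?_
    rw [ind_true ha, one_mul]
  · intro a ha
    rw [ind_false ha, zero_mul]

lemma Emb_g_sum (N : ℕ) (z : ℤ × ℤ) : ∑' t, Emb_g N z t = ENNReal.ofReal (ZpR N z) := by
  have hx := xc_pos
  have e1 : ENNReal.ofReal (ZpR N z) = ∑ e ∈ bdR N, ∑ n ∈ Finset.range (Bn N), ∑ _Q ∈ pF N z e n, xE ^ (n + 2) := by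
    unfold ZpR
    rw [ENNReal.ofReal_sum_of_nonneg fun e _ => Finset.sum_nonneg fun n _ => Finset.sum_nonneg fun _ _ => by positivity]
    refine Finset.sum_congr rfl fun e _ => ?_
    rw [ENNReal.ofReal_sum_of_nonneg fun n _ => Finset.sum_nonneg fun _ _ => by positivity]
    refine Finset.sum_congr rfl fun n _ => ?_
    rw [ENNReal.ofReal_sum_of_nonneg fun _ _ => by positivity]
    refine Finset.sum_congr rfl fun _ _ => ?_
    unfold xE
    rw [ENNReal.ofReal_pow hx.le]
  rw [e1, ENNReal.tsum_prod', ← Emb_tsum_ind]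
  refine tsum_congr fun e => ?_
  rw [ENNReal.tsum_prod', ← Emb_tsum_ind, ← ENNReal.tsum_mul_left]
  refine tsum_congr fun n => ?_
  rw [← Emb_tsum_ind, ← ENNReal.tsum_mul_left, ← ENNReal.tsum_mul_left]
  refine tsum_congr fun Q => ?_
  unfold Emb_g
  simp only
  rw [ind_and, ind_and]
  ring

/-- Injections. -/
lemma Emb_tsum_le {α β : Type*} (P : α → Prop) (F : α → ℝ≥0∞) (g : β → ℝ≥0∞) (f : α → β)
    (h1 : ∀ a, P a → F a ≤ g (f a)) (h2 : ∀ a a', P a → P a' → f a = f a' → a = a') :
    ∑' a, ind (P a) * F a ≤ ∑' b, g b := by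
  classical
  have e1 : ∑' a, ind (P a) * F a = ∑' a : {a // P a}, F a := by
    refine Eq.trans ?_ (tsum_subtype {a | P a} F).symm
    refine tsum_congr fun a => ?_
    by_cases ha : P a
    · rw [ind_true ha, one_mul, Set.indicator_of_mem (show a ∈ {a | P a} from ha)]
    · rw [ind_false ha, zero_mul, Set.indicator_of_notMem (show a ∉ {a | P a} from ha)]
  rw [e1]
  calc ∑' a : {a // P a}, F a ≤ ∑' a : {a // P a}, g (f a) := ENNReal.tsum_le_tsum fun a => h1 a a.2
    _ ≤ ∑' b, g b := ENNReal.tsum_comp_le_tsum_of_injective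
        (f := fun a : {a // P a} => f a) (fun a a' h => Subtype.ext (h2 a a' a.2 a'.2 h)) g

theorem mk_le {N : ℕ} {z : ℤ × ℤ} (hz : Hx N z) :
    xE * ∑' l1 : List Blk, ∑' c : Blk, ∑' l2 : List Blk, ∑ u ∈ (V c.1).toFinset, ind (MkH N z l1 c l2 u) * (wj l1 * xE ^ (c.1.length + 1) * wj l2) ≤
      ENNReal.ofReal (ZpR N z) := by
  have e1 : xE * ∑' l1 : List Blk, ∑' c : Blk, ∑' l2 : List Blk, ∑ u ∈ (V c.1).toFinset,
      ind (MkH N z l1 c l2 u) * (wj l1 * xE ^ (c.1.length + 1) * wj l2) =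
      ∑' t : List Blk × Blk × List Blk × (ℤ × ℤ), ind (MkH N z t.1 t.2.1 t.2.2.1 t.2.2.2) *
        (xE * (wj t.1 * xE ^ (t.2.1.1.length + 1) * wj t.2.2.1)) := by
    rw [ENNReal.tsum_prod', ← ENNReal.tsum_mul_left]
    refine tsum_congr fun l1 => ?_
    rw [ENNReal.tsum_prod', ← ENNReal.tsum_mul_left]
    refine tsum_congr fun c => ?_
    rw [ENNReal.tsum_prod', ← ENNReal.tsum_mul_left]
    refine tsum_congr fun l2 => ?_
    rw [tsum_eq_sum (s := (V c.1).toFinset), Finset.mul_sum]
    · refine Finset.sum_congr rfl fun u _ => ?_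
      ring
    · intro u hu
      rw [ind_false, zero_mul]
      intro h
      exact hu (List.mem_toFinset.2 h.1)
  rw [e1, ← Emb_g_sum]
  refine Emb_tsum_le _ _ _ (fun t => ((E (jn (t.1 ++ t.2.1 :: t.2.2.1)) + (z - (ptz t.1 + t.2.2.2)),
    E (jn (t.1 ++ t.2.1 :: t.2.2.1)) + (z - (ptz t.1 + t.2.2.2)) + (1, 0)),
    (jn (t.1 ++ t.2.1 :: t.2.2.1)).length, QpE (z - (ptz t.1 + t.2.2.2)) (jn (t.1 ++ t.2.1 :: t.2.2.1)))) ?_ ?_
  · rintro ⟨l1, c, l2, u⟩ ⟨h1, h2, h3, h4⟩
    simp only at h1 h2 h3 h4 ⊢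
    set l := l1 ++ c :: l2 with hl
    have hne : l ≠ [] := by rw [hl]; simp
    set s := z - (ptz l1 + u) with hs
    have hj : hj l = 2 * N + 1 := by
      rw [hl, hj_append, hj_cons]; omega
    have hBr : Br (2 * N) (jn l) := by
      have := jn_Br hne
      rwa [hj, Nat.add_sub_cancel] at this
    have hmem : ptz l1 + u ∈ V (jn l) := (mem_jn hne _).2 ⟨l1, c, l2, u, hl, h1, rfl⟩
    have hs3 : (s.1 - s.2) % 3 = 0 := by
      have a1 := hz.1
      have a2 := V_hon hmem
      unfold hon at a1 a2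
      rw [hs]
      simp only [F0, Prod.fst_sub, Prod.snd_sub, Prod.fst_add, Prod.snd_add] at h2 a2 ⊢
      omega
    have hF : F0 s = - (3 * (N : ℤ)) := by
      have : F0 s = F0 z - F0 (ptz l1 + u) := by
        rw [hs]; simp only [F0, Prod.fst_sub, Prod.snd_sub]; ring
      rw [this, h2]; ring
    have hlat : ∀ w ∈ V (jn l), |(w + s).2| ≤ N := by
      intro w hw
      have := h4 w hw
      rwa [show w - (ptz l1 + u) + z = w + s by rw [hs]; ring] at this
    obtain ⟨c1, c2, c3⟩ := Emb_isC hBr hs3 hF hlat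
    have hb : Bd (Hx N) (E (jn l) + s) (E (jn l) + s + (1, 0)) := by
      have := (Finset.mem_filter.1 c1).1
      exact bdry_bd this
    have hz' : z = (ptz l1 + u) + s := by rw [hs]; ring
    have hpF : QpE s (jn l) ∈ pF N z (E (jn l) + s, E (jn l) + s + (1, 0)) (jn l).length := by
      unfold pF
      rw [Finset.mem_filter, Finset.mem_filter, mem_cn hb]
      refine ⟨⟨c2, ?_⟩, c3⟩
      unfold QpE
      rw [List.map_cons, List.tail_cons, List.mem_map]
      exact ⟨ptz l1 + u, List.mem_append_left _ hmem, hz'.symm⟩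
    have hrange : (jn l).length ∈ Finset.range (Bn N) := by
      rw [Finset.mem_range]
      by_contra hn
      have h5 := sw_empty hb (jn l).length (not_lt.1 hn)
      obtain ⟨a, v, w, r, -, h6, -⟩ := c2
      have h7 := (mem_sw hb _ _).2 h6
      rw [h5] at h7
      simp at h7
    unfold Emb_g
    simp only
    rw [ind_true ⟨c1, hrange, hpF⟩, one_mul]
    have hw : wj l1 * xE ^ (c.1.length + 1) * wj l2 = wj l := by
      rw [hl]
      have : wj (l1 ++ c :: l2) = wj l1 * wj (c :: l2) := hsI.toAlph.w_append l1 (c :: l2)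
      rw [this, wj_cons]; ring
    rw [hw, jn_length hne]
    exact le_of_eq (by ring)
  · rintro ⟨l1, c, l2, u⟩ ⟨l1', c', l2', u'⟩ ⟨h1, -, -, -⟩ ⟨h1', -, -, -⟩ h
    simp only [Prod.mk.injEq] at h h1 h1' ⊢
    obtain ⟨hs, hW⟩ := Emb_inj h.2.2
    have hl := jn_inj (by simp) (by simp) hW
    have hp : ptz l1 + u = ptz l1' + u' := sub_right_injective hs
    obtain ⟨a1, a2, a3, a4⟩ := Emb_mark h1 h1' hl hp
    exact ⟨a1, a2, a3, a4⟩

end Pool.Agent.EVN
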