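import Pool.Agent.RTA.Arms
import Pool.Agent.HHP.Mass

/-!
EVN, part M: the marked identity in the hexagon `Hx N` with an arbitrary marked vertex `z` and starting edges on the right
side (`F0 s' > 3 N + 1`).

* `AR N z`: arms from `z` (first vertex of the list) which leave `Hx N` through the right side (last vertex of the list).
* `PR N z`: paths from a vertex `s'` outside the right side (last vertex of the list), through `Hx N`, which visit `z` and leave
  `Hx N` anywhere (first vertex `u` of the list).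
* `marked_right`: the mass of `PR N z` is at most three times the mass of `AR N z`.
-/

namespace Pool.Agent.EVN.M

open Pool.Agent.Hhelper14.SAW Pool.Agent.RTA Pool.Agent.HHP
open scoped ENNReal

/-- Arms from `z` through the right side. -/
def AR (N : ℕ) (z : ℤ × ℤ) : Set (List (ℤ × ℤ)) :=
  {R | R.head? = some z ∧ HChain R ∧ R.Nodup ∧ (∀ x ∈ R.dropLast, Hx N x) ∧ ∀ x ∈ R.getLast?, 3 * (N : ℤ) + 1 < F0 x}

/-- Paths which start outside the right side, visit `z` and leave anywhere. -/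
def PR (N : ℕ) (z : ℤ × ℤ) : Set (List (ℤ × ℤ)) :=
  {Q | Q.Nodup ∧ HChain Q ∧ ∃ u T s', Q = u :: (T ++ [s']) ∧ ¬ Hx N u ∧ (∀ x ∈ T, Hx N x) ∧ z ∈ T ∧ 3 * (N : ℤ) + 1 < F0 s'}

/-- Boundary edges on the right side. -/
noncomputable def Rt (N : ℕ) : Finset ((ℤ × ℤ) × (ℤ × ℤ)) := (bdry N).filter fun e => 3 * (N : ℤ) + 1 < F0 e.2

lemma out_of {N : ℕ} {x : ℤ × ℤ} (h : 3 * (N : ℤ) + 1 < F0 x) : ¬ Hx N x := fun hx => by
  have := hx.2.1
  omega

/-- The arms with boundary edge `e` and `n` further steps. -/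
noncomputable def armZ (N : ℕ) (z : ℤ × ℤ) (e : (ℤ × ℤ) × (ℤ × ℤ)) (n : ℕ) : Finset (List (ℤ × ℤ)) :=
  (sw (Hx N) e.1 e.2 n).filter (fun P => P.headI = z)

/-- The paths through `z` with boundary edge `e`. -/
noncomputable def pathZ (N : ℕ) (z : ℤ × ℤ) (e : (ℤ × ℤ) × (ℤ × ℤ)) (n : ℕ) : Finset (List (ℤ × ℤ)) :=
  ((cn (Hx N) e.1 e.2 n).filter (fun Q => z ∈ Q.tail)).filter (fun Q => ¬ Hx N Q.headI)

lemma edge_eq {N : ℕ} {z : ℤ × ℤ} (hz : Hx N z) {e : (ℤ × ℤ) × (ℤ × ℤ)} (he : e ∈ bdry N) :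
    ∑ n ∈ Finset.range (Bn N), ∑ P ∈ armZ N z e n, xc ^ (n + 1) * Real.cos (Tn P * (Real.pi / 8)) =
      ∑ n ∈ Finset.range (Bn N), ∑ Q ∈ pathZ N z e n, xc ^ (n + 2) * Real.cos (Tn Q * (Real.pi / 8)) := by
  have hb := bdry_bd he
  have h := marked (z := z) hz hb (sw_empty hb)
  have h2 := congrArg (fun c : ℂ => xc * c.re) h
  simp only [Complex.re_sum, Az, Ez] at h2
  rw [Finset.mul_sum, Finset.mul_sum] at h2
  calc ∑ n ∈ Finset.range (Bn N), ∑ P ∈ armZ N z e n, xc ^ (n + 1) * Real.cos (Tn P * (Real.pi / 8))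
      = ∑ n ∈ Finset.range (Bn N), xc * ((xc : ℂ) ^ n *
          ∑ P ∈ (sw (Hx N) e.1 e.2 n).filter (fun P => P.headI = z), zt (Tn P)).re := by
        refine Finset.sum_congr rfl fun n _ => ?_
        have : ((xc : ℂ) ^ n) = ((xc ^ n : ℝ) : ℂ) := by push_cast; ring
        rw [this, Complex.re_ofReal_mul, Complex.re_sum, Finset.mul_sum, Finset.mul_sum]
        unfold armZ
        refine Finset.sum_congr rfl fun P _ => ?_
        rw [zt_re]; ring
    _ = _ := h2
    _ = _ := by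
        refine Finset.sum_congr rfl fun n _ => ?_
        have : ((xc : ℂ) ^ (n + 1)) = ((xc ^ (n + 1) : ℝ) : ℂ) := by push_cast; ring
        rw [this, Complex.re_ofReal_mul, Complex.re_sum, Finset.mul_sum, Finset.mul_sum]
        unfold pathZ
        refine Finset.sum_congr rfl fun P _ => ?_
        rw [zt_re]; ring

lemma pathZ_turn {N : ℕ} {z : ℤ × ℤ} {e : (ℤ × ℤ) × (ℤ × ℤ)} (he : e ∈ bdry N) {n : ℕ} {Q : List (ℤ × ℤ)}
    (hQ : Q ∈ pathZ N z e n) : -3 ≤ Tn Q ∧ Tn Q ≤ 3 := by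
  have hb := bdry_bd he
  unfold pathZ at hQ
  simp only [Finset.mem_filter, mem_cn hb] at hQ
  obtain ⟨⟨⟨u, v, w, r, rfl, hP, hadj, huw⟩, -⟩, hu⟩ := hQ
  exact turn_le hb hP hadj huw hu

lemma third_le : (1 : ℝ) / 3 ≤ Real.cos (3 * Real.pi / 8) := by
  have h1 : Real.cos (3 * Real.pi / 8) = Real.sin (Real.pi / 8) := by
    rw [← Real.cos_pi_div_two_sub]
    congr 1
    ring
  rw [h1, Real.sin_pi_div_eight]
  have h2 : Real.sqrt 2 ≤ 1.42 := by
    rw [Real.sqrt_le_left (by norm_num)]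
    norm_num
  have h3 : (0.7 : ℝ) ≤ Real.sqrt (2 - Real.sqrt 2) := by
    apply Real.le_sqrt_of_sq_le
    nlinarith
  linarith

/-- One boundary edge, with the cosine. -/
lemma edge_cos {N : ℕ} {z : ℤ × ℤ} (hz : Hx N z) {e : (ℤ × ℤ) × (ℤ × ℤ)} (he : e ∈ bdry N) :
    Real.cos (3 * Real.pi / 8) * ∑ n ∈ Finset.range (Bn N), ∑ _Q ∈ pathZ N z e n, xc ^ (n + 2) ≤
      ∑ n ∈ Finset.range (Bn N), ∑ _P ∈ armZ N z e n, xc ^ (n + 1) := by
  have hx := xc_pos
  refine le_trans ?_ ((edge_eq hz he).symm.le.trans ?_)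
  · rw [Finset.mul_sum]
    refine Finset.sum_le_sum fun n _ => ?_
    rw [Finset.mul_sum]
    refine Finset.sum_le_sum fun Q hQ => ?_
    have h := pathZ_turn he hQ
    have h2 := cos_le h.1 h.2
    rw [mul_comm]
    exact mul_le_mul_of_nonneg_left h2 (by positivity)
  · refine Finset.sum_le_sum fun n _ => Finset.sum_le_sum fun P _ => ?_
    have h := Real.cos_le_one (Tn P * (Real.pi / 8))
    have h2 : 0 ≤ xc ^ (n + 1) := by positivity
    nlinarith

/-- One boundary edge, in the real numbers. -/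
lemma edge_le {N : ℕ} {z : ℤ × ℤ} (hz : Hx N z) {e : (ℤ × ℤ) × (ℤ × ℤ)} (he : e ∈ bdry N) :
    ∑ n ∈ Finset.range (Bn N), ∑ _Q ∈ pathZ N z e n, xc ^ (n + 2) ≤
      3 * ∑ n ∈ Finset.range (Bn N), ∑ _P ∈ armZ N z e n, xc ^ (n + 1) := by
  have hx := xc_pos
  have h := edge_eq hz he
  have a1 : ∑ n ∈ Finset.range (Bn N), ∑ P ∈ armZ N z e n, xc ^ (n + 1) * Real.cos (Tn P * (Real.pi / 8)) ≤
      ∑ n ∈ Finset.range (Bn N), ∑ _P ∈ armZ N z e n, xc ^ (n + 1) := by
    refine Finset.sum_le_sum fun n _ => Finset.sum_le_sum fun P _ => ?_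
    have h := Real.cos_le_one (Tn P * (Real.pi / 8))
    have h2 : 0 ≤ xc ^ (n + 1) := by positivity
    nlinarith
  have a2 : (1 : ℝ) / 3 * ∑ n ∈ Finset.range (Bn N), ∑ _Q ∈ pathZ N z e n, xc ^ (n + 2) ≤
      ∑ n ∈ Finset.range (Bn N), ∑ Q ∈ pathZ N z e n, xc ^ (n + 2) * Real.cos (Tn Q * (Real.pi / 8)) := by
    rw [Finset.mul_sum]
    refine Finset.sum_le_sum fun n _ => ?_
    rw [Finset.mul_sum]
    refine Finset.sum_le_sum fun Q hQ => ?_
    have h := pathZ_turn he hQ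
    have h2 := third_le.trans (cos_le h.1 h.2)
    rw [mul_comm]
    exact mul_le_mul_of_nonneg_left h2 (by positivity)
  linarith

lemma xE_pow (m : ℕ) : xE ^ m = ENNReal.ofReal (xc ^ m) := by
  unfold xE
  rw [ENNReal.ofReal_pow xc_pos.le]

lemma armZ_mem {N n : ℕ} {z : ℤ × ℤ} {e : (ℤ × ℤ) × (ℤ × ℤ)} (he : e ∈ bdry N) (hr : 3 * (N : ℤ) + 1 < F0 e.2)
    {R : List (ℤ × ℤ)} (h : R ∈ armZ N z e n) : R ∈ AR N z ∧ R.length = n + 2 := by
  have hb := bdry_bd he
  unfold armZ at h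
  rw [Finset.mem_filter, mem_sw hb] at h
  obtain ⟨⟨hl, hN, hC, t, ht, hpt⟩, hh⟩ := h
  refine ⟨⟨?_, hC, hN, ?_, ?_⟩, hl⟩
  · cases R with
    | nil => simp at hl
    | cons a X => simp only [List.headI_cons] at hh; rw [hh]; rfl
  · have : R.dropLast = t ++ [e.1] := by
      rw [ht]
      have e1 : t ++ [e.1, e.2] = (t ++ [e.1]) ++ [e.2] := by simp
      rw [e1, List.dropLast_concat]
    rw [this]; exact hpt
  · intro x hx
    rw [ht] at hx
    simp at hx
    rw [← hx]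
    exact hr

/-- The arms of all right edges. -/
lemma arm_sum (N : ℕ) (z : ℤ × ℤ) :
    ∑ e ∈ Rt N, ∑ n ∈ Finset.range (Bn N), ∑ _P ∈ armZ N z e n, xE ^ (n + 1) ≤
      ∑' R : AR N z, xE ^ (R.1.length - 1) := by
  classical
  set B : Finset (List (ℤ × ℤ)) := (Rt N).biUnion fun e => (Finset.range (Bn N)).biUnion fun n => armZ N z e n with hB
  have hRt : ∀ e ∈ Rt N, e ∈ bdry N ∧ 3 * (N : ℤ) + 1 < F0 e.2 := fun e he => Finset.mem_filter.1 he
  have h1 : ∑ R ∈ B, xE ^ (R.length - 1) =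
      ∑ e ∈ Rt N, ∑ n ∈ Finset.range (Bn N), ∑ _P ∈ armZ N z e n, xE ^ (n + 1) := by
    rw [hB, Finset.sum_biUnion]
    · refine Finset.sum_congr rfl fun e he => ?_
      obtain ⟨he, hr⟩ := hRt e he
      rw [Finset.sum_biUnion]
      · refine Finset.sum_congr rfl fun n _ => Finset.sum_congr rfl fun R hR => ?_
        rw [(armZ_mem he hr hR).2]
        rfl
      · intro n _ m _ hnm
        simp only [Function.onFun]
        rw [Finset.disjoint_left]
        intro R h1 h2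
        have e1 := (armZ_mem he hr h1).2
        have e2 := (armZ_mem he hr h2).2
        omega
    · intro e he e' he' hne
      simp only [Function.onFun]
      rw [Finset.disjoint_left]
      intro R h1 h2
      simp only [Finset.mem_biUnion] at h1 h2
      obtain ⟨n, -, h1⟩ := h1
      obtain ⟨m, -, h2⟩ := h2
      unfold armZ at h1 h2
      rw [Finset.mem_filter, mem_sw (bdry_bd (hRt e he).1)] at h1
      rw [Finset.mem_filter, mem_sw (bdry_bd (hRt e' he').1)] at h2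
      have := isW_unique h1.1 h2.1
      exact hne (Prod.ext this.1 this.2.1)
  rw [← h1, ← Finset.tsum_subtype' B fun R => xE ^ (R.length - 1)]
  refine ENNReal.tsum_mono_subtype (fun R : List (ℤ × ℤ) => xE ^ (R.length - 1)) ?_
  intro R hR
  rw [Finset.mem_coe, hB] at hR
  simp only [Finset.mem_biUnion] at hR
  obtain ⟨e, he, n, -, hR⟩ := hR
  exact (armZ_mem (hRt e he).1 (hRt e he).2 hR).1

/-- The paths are all counted. -/
lemma path_sum (N : ℕ) (z : ℤ × ℤ) :
    ∑' Q : PR N z, xE ^ (Q.1.length - 1) ≤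
      ∑ e ∈ Rt N, ∑ n ∈ Finset.range (Bn N), ∑ _Q ∈ pathZ N z e n, xE ^ (n + 2) := by
  classical
  have hsub : PR N z ⊆ ⋃ e ∈ Rt N, ⋃ n ∈ Finset.range (Bn N), (pathZ N z e n : Set (List (ℤ × ℤ))) := by
    rintro Q ⟨hnd, hC, u, T, s', rfl, hu, hT, hz, hs'⟩
    obtain ⟨v, T', rfl⟩ : ∃ v T', T = v :: T' := List.exists_cons_of_ne_nil (List.ne_nil_of_mem hz)
    obtain ⟨t, s, hts⟩ : ∃ t s, v :: T' = t ++ [s] :=
      ⟨(v :: T').dropLast, (v :: T').getLast (by simp), (List.dropLast_append_getLast _).symm⟩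
    have hC2 : HChain (v :: T' ++ [s']) := by
      have := List.IsChain.tail hC
      exact this
    have hs : Hx N s := hT s (by rw [hts]; simp)
    have hadj : Adj s s' := by
      rw [hts] at hC2
      have e1 : t ++ [s] ++ [s'] = t ++ [s, s'] := by simp
      rw [e1] at hC2
      have := (List.isChain_append.1 hC2).2.1
      exact (List.isChain_cons_cons.1 this).1
    have hb : (s, s') ∈ bdry N := mem_bdry.2 ⟨hs, hadj, out_of hs'⟩
    have hbd := bdry_bd hb
    have hW : IsW (Hx N) s s' t.length (v :: T' ++ [s']) := by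
      refine ⟨?_, (List.nodup_cons.1 hnd).2, hC2, t, ?_, ?_⟩
      · rw [hts]; simp
      · rw [hts]; simp
      · intro x hx
        exact hT x (by rw [hts]; exact hx)
    simp only [Set.mem_iUnion]
    refine ⟨(s, s'), Finset.mem_filter.2 ⟨hb, hs'⟩, t.length, ?_, ?_⟩
    · rw [Finset.mem_range]
      by_contra hcon
      rw [not_lt] at hcon
      have := sw_empty hbd t.length hcon
      have h2 := (mem_sw hbd t.length _).2 hW
      rw [this] at h2
      simp at h2
    · rw [Finset.mem_coe]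
      unfold pathZ
      rw [Finset.mem_filter, Finset.mem_filter, mem_cn hbd]
      refine ⟨⟨?_, ?_⟩, by simpa using hu⟩
      · obtain ⟨w, r, hwr⟩ : ∃ w r, T' ++ [s'] = w :: r := List.exists_cons_of_ne_nil (by simp)
        refine ⟨u, v, w, r, by simp [hwr], ?_, (List.isChain_cons_cons.1 hC).1, ?_⟩
        · rw [← hwr]; exact hW
        · rintro rfl
          apply (List.nodup_cons.1 hnd).1
          simp [hwr]
      · simp only [List.tail_cons]
        exact List.mem_append_left _ hz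
  refine (ENNReal.tsum_mono_subtype (fun Q : List (ℤ × ℤ) => xE ^ (Q.length - 1)) hsub).trans ?_
  refine (ENNReal.tsum_biUnion_le (fun Q : List (ℤ × ℤ) => xE ^ (Q.length - 1)) (Rt N) _).trans ?_
  refine Finset.sum_le_sum fun e he => ?_
  refine (ENNReal.tsum_biUnion_le (fun Q : List (ℤ × ℤ) => xE ^ (Q.length - 1)) (Finset.range (Bn N)) _).trans ?_
  refine Finset.sum_le_sum fun n _ => ?_
  rw [Finset.tsum_subtype' (pathZ N z e n) fun Q => xE ^ (Q.length - 1)]
  refine le_of_eq (Finset.sum_congr rfl fun Q hQ => ?_)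
  have he' := (Finset.mem_filter.1 he).1
  unfold pathZ at hQ
  simp only [Finset.mem_filter, mem_cn (bdry_bd he')] at hQ
  obtain ⟨⟨⟨u, v, w, r, rfl, hP, -⟩, -⟩, -⟩ := hQ
  have e0 : (u :: v :: w :: r).length - 1 = n + 2 := hP.1
  rw [e0]

/-- THE MARKED INEQUALITY. -/
theorem marked_right {N : ℕ} {z : ℤ × ℤ} (hz : Hx N z) :
    ∑' Q : PR N z, xE ^ (Q.1.length - 1) ≤ 3 * ∑' R : AR N z, xE ^ (R.1.length - 1) := by
  have hx := xc_pos
  refine (path_sum N z).trans ((?_ : _ ≤ _).trans (mul_le_mul_right (arm_sum N z) 3))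
  rw [Finset.mul_sum]
  refine Finset.sum_le_sum fun e he => ?_
  have h := edge_le hz (Finset.mem_filter.1 he).1
  have e1 : ∑ n ∈ Finset.range (Bn N), ∑ _Q ∈ pathZ N z e n, xE ^ (n + 2) =
      ENNReal.ofReal (∑ n ∈ Finset.range (Bn N), ∑ _Q ∈ pathZ N z e n, xc ^ (n + 2)) := by
    rw [ENNReal.ofReal_sum_of_nonneg fun n _ => Finset.sum_nonneg fun _ _ => by positivity]
    refine Finset.sum_congr rfl fun n _ => ?_
    rw [ENNReal.ofReal_sum_of_nonneg fun _ _ => by positivity]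
    exact Finset.sum_congr rfl fun _ _ => xE_pow _
  have e2 : 3 * ∑ n ∈ Finset.range (Bn N), ∑ _P ∈ armZ N z e n, xE ^ (n + 1) =
      ENNReal.ofReal (3 * ∑ n ∈ Finset.range (Bn N), ∑ _P ∈ armZ N z e n, xc ^ (n + 1)) := by
    rw [ENNReal.ofReal_mul (by norm_num), ENNReal.ofReal_ofNat,
      ENNReal.ofReal_sum_of_nonneg fun n _ => Finset.sum_nonneg fun _ _ => by positivity]
    congr 1
    refine Finset.sum_congr rfl fun n _ => ?_
    rw [ENNReal.ofReal_sum_of_nonneg fun _ _ => by positivity]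
    exact Finset.sum_congr rfl fun _ _ => xE_pow _
  rw [e1, e2]
  exact ENNReal.ofReal_le_ofReal h

end Pool.Agent.EVN.M
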