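import Pool.Agent.EVN.M.Def
import Pool.Agent.EVN.M.IdG

/-!
Project EVN, block M, module Id: THE MARKED IDENTITY, starting edges on the right side only, any mark `z` in the hexagon
(proof: M/IdG, one boundary edge at a time).
-/

namespace Pool.Agent.EVN

open Pool.Agent.Hhelper14.SAW Pool.Agent.HHP Pool.Agent.HEP Pool.Agent.PLY.G Pool.Agent.RTA
open scoped ENNReal

theorem id_right {N : ℕ} {z : ℤ × ℤ} (hz : Hx N z) : Real.cos (3 * Real.pi / 8) * ZpR N z ≤ ZaR N z := by
  unfold ZpR ZaR
  rw [Finset.mul_sum]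
  exact Finset.sum_le_sum fun e he => M.edge_cos hz (Finset.mem_filter.1 he).1

end Pool.Agent.EVN
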