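import Pool.Agent.EVN.M.Def
import Pool.Agent.PLY.Main
import Pool.Agent.BEX.F.Fold

/-!
Project EVN, block M, module Nar: NARROW WORDS OF BOTH PARITIES.

PROOF. `wide_small` (PLY/G/StZero, `TailP` and `StReg` of `hsI wdb` as in PLY/G/StAll.hsI_tube_zero) gives `W` with: the words of height `≤ R` and total width
`sw wdb l ≤ W R` have mass `≥ (3/4) U R` (`tsum_le`: all words of height `≤ R` have mass `U R`); such a word is in `tub wdb 0 (W R)` (`tub_of_sw`, `dx_wdb`).
`tube_all hsI_quarter 0` with `ε = 1/100` gives `c0`, `n0` and for `N' = D + D/4 ≥ n0` a prefix free set `X` of words with `N' ≤ h ≤ (1 + ε) N'`, in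
`tub wdb 0 (ε N')`, of mass `≥ c0`. Take `K ≥ 100 (W + 1) + n0 + 100`. The words `l ++ m`, `l ∈ X`, `m` a narrow word of height `≤ R`, are different (prefix free),
have mass `≥ c0 (3/4) U R`, height in `[D + D/4, (1 + ε)(D + D/4) + R] ⊆ [D, 2 D - 1]` and are in `tub wdb 0 (D/16 - 3)`: `tub_append` (the end of a tube word is
within `ε N'`, `tub_end`). Parity: one of the two parity classes has mass at least half of it; appending the block `c1 = ⟨[true], _⟩` (height `1`, `wdb c1 ≤ 3`,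
weight `xE ^ 2`, `Irr` because it has one column) changes the parity and keeps the window. So both classes have mass `≥ c U R` with `c = c0 (3/8) xE ^ 2`.
-/

namespace Pool.Agent.EVN

open Pool.Agent.Hhelper14.SAW Pool.Agent.HHP Pool.Agent.HEP Pool.Agent.PLY.G Pool.Agent.RTA
open scoped ENNReal

private lemma Nar_V1 : V [true] = [(0, 0), (0, 1)] := by decide

private lemma Nar_E1 : E [true] = (0, 1) := by decide

private lemma Nar_wdb : wdb Pool.Agent.BEX.F.uB ≤ 3 := by
  unfold wdb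
  refine Nat.add_le_add_right (Finset.sup_le ?_) 2
  rintro ⟨z, w⟩ hzw
  rw [Finset.mem_product, List.mem_toFinset, List.mem_toFinset] at hzw
  obtain ⟨hz, hw⟩ := hzw
  change z ∈ V [true] at hz
  change w ∈ V [true] at hw
  rw [Nar_V1] at hz hw
  simp only [List.mem_cons, List.not_mem_nil, or_false] at hz hw
  rcases hz with rfl | rfl <;> rcases hw with rfl | rfl <;> decide

private lemma Nar_ht : hsI.toAlph.ht Pool.Agent.BEX.F.uB = 1 := by
  show htw [true] = 1
  unfold htw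
  rw [Nar_E1]
  decide

private lemma Nar_wt : hsI.toAlph.wt Pool.Agent.BEX.F.uB = xE ^ 2 := rfl

/-- The narrow words of height at most `R` have mass at least `U R / 2`. -/
private lemma Nar_mass {A : Alph} {wd : A.B → ℕ} {W R : ℕ} (h : ∑' l, ind (A.h l ≤ R ∧ W * R < A.sw wd l) * A.w l ≤ A.U R / 4) :
    A.U R / 2 ≤ ∑' l, ind (l ∈ {l : List A.B | A.h l ≤ R ∧ A.sw wd l ≤ W * R}) * A.w l := by
  have h1 : A.U R ≤ ∑' l, ind (l ∈ {l : List A.B | A.h l ≤ R ∧ A.sw wd l ≤ W * R}) * A.w l + A.U R / 2 := by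
    calc A.U R = ∑' l, ind (A.h l ≤ R) * A.w l := (A.tsum_le R).symm
      _ ≤ ∑' l, (ind (l ∈ {l : List A.B | A.h l ≤ R ∧ A.sw wd l ≤ W * R}) * A.w l +
            ind (A.h l ≤ R ∧ W * R < A.sw wd l) * A.w l) := by
          refine ENNReal.tsum_le_tsum fun l => ?_
          rw [← add_mul]
          refine mul_le_mul' ?_ le_rfl
          by_cases h1 : A.h l ≤ R
          · by_cases h2 : W * R < A.sw wd l
            · rw [ind_true h1, ind_true (p := A.h l ≤ R ∧ W * R < A.sw wd l) ⟨h1, h2⟩]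
              exact le_add_self
            · rw [ind_true h1, ind_true (p := l ∈ {l : List A.B | A.h l ≤ R ∧ A.sw wd l ≤ W * R}) ⟨h1, not_lt.1 h2⟩]
              exact le_self_add
          · rw [ind_false h1]
            exact zero_le
      _ ≤ _ := by
          rw [ENNReal.tsum_add]
          refine add_le_add le_rfl (h.trans ?_)
          exact ENNReal.div_le_div_left (by norm_num) _
  have hU1 : A.U R ≠ ⊤ := A.U_ne_top R
  have h2 : A.U R / 2 ≠ ⊤ := (ENNReal.div_lt_top hU1 (by norm_num)).ne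
  have h3 : A.U R / 2 + A.U R / 2 ≤ ∑' l, ind (l ∈ {l : List A.B | A.h l ≤ R ∧ A.sw wd l ≤ W * R}) * A.w l + A.U R / 2 := by
    rw [ENNReal.add_halves]; exact h1
  exact (ENNReal.add_le_add_iff_right h2).1 h3

/-- The narrow words of the window and of one parity. -/
private def Nar_P (D π : ℕ) (l : List Blk) : Prop :=
  D ≤ hj l ∧ hj l ≤ 2 * D ∧ hj l % 2 = π ∧ hsI.toAlph.tub wdb 0 ((D : ℝ) / 16) l

private lemma Nar_sum (D π : ℕ) : ∑' l : List Blk, ind (Nar_P D π l) * wj l ≤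
    ∑ h ∈ (Finset.Icc D (2 * D)).filter (fun h => h % 2 = π), nw ((D : ℝ) / 16) h := by
  unfold nw
  rw [← Summable.tsum_finsetSum fun _ _ => ENNReal.summable]
  refine ENNReal.tsum_le_tsum fun l => ?_
  by_cases hg : Nar_P D π l
  · obtain ⟨h1, h2, h3, h4⟩ := hg
    rw [ind_true (p := Nar_P D π l) ⟨h1, h2, h3, h4⟩]
    have hm : hj l ∈ (Finset.Icc D (2 * D)).filter (fun h => h % 2 = π) :=
      Finset.mem_filter.2 ⟨Finset.mem_Icc.2 ⟨h1, h2⟩, h3⟩
    refine le_trans ?_ (Finset.single_le_sum (f := fun h => ind (hj l = h ∧ hsI.toAlph.tub wdb 0 ((D : ℝ) / 16) l) * wj l)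
      (fun _ _ => zero_le) hm)
    show 1 * wj l ≤ ind (hj l = hj l ∧ hsI.toAlph.tub wdb 0 ((D : ℝ) / 16) l) * wj l
    rw [ind_true (p := hj l = hj l ∧ hsI.toAlph.tub wdb 0 ((D : ℝ) / 16) l) ⟨rfl, h4⟩]
  · rw [ind_false hg, zero_mul]
    exact zero_le

/-- A set of words which stays in the window with room for one more minimal block. -/
private lemma Nar_par {D : ℕ} {S : Set (List Blk)} {m : ℝ≥0∞} (hm : m ≤ ∑' l : List Blk, ind (l ∈ S) * wj l)
    (hS : ∀ l ∈ S, D ≤ hj l ∧ hj l + 1 ≤ 2 * D ∧ hsI.toAlph.tub wdb 0 ((D : ℝ) / 16) l ∧ |(xj l : ℝ)| + 3 ≤ (D : ℝ) / 16)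
    {π : ℕ} (hπ : π < 2) : xE ^ 2 / 2 * m ≤ ∑' l : List Blk, ind (Nar_P D π l) * wj l := by
  set T : ℕ → ℝ≥0∞ := fun q => ∑' l : List Blk, ind (l ∈ S ∧ hj l % 2 = q) * wj l with hT
  have h1 : m ≤ T π + T (1 - π) := by
    refine hm.trans ?_
    rw [hT]
    simp only
    rw [← ENNReal.tsum_add]
    refine ENNReal.tsum_le_tsum fun l => ?_
    rw [← add_mul]
    refine mul_le_mul' ?_ le_rfl
    by_cases hl : l ∈ S
    · rw [ind_true hl]
      by_cases h2 : hj l % 2 = π
      · rw [ind_true (p := l ∈ S ∧ hj l % 2 = π) ⟨hl, h2⟩]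
        exact le_self_add
      · rw [ind_true (p := l ∈ S ∧ hj l % 2 = 1 - π) ⟨hl, by omega⟩]
        exact le_add_self
    · rw [ind_false hl]
      exact zero_le
  have h2 : T π ≤ ∑' l : List Blk, ind (Nar_P D π l) * wj l := by
    refine ENNReal.tsum_le_tsum fun l => mul_le_mul' (ind_mono ?_) le_rfl
    rintro ⟨hl, hp⟩
    obtain ⟨a, b, c, -⟩ := hS l hl
    exact ⟨a, by omega, hp, c⟩
  have h3 : xE ^ 2 * T (1 - π) ≤ ∑' l : List Blk, ind (Nar_P D π l) * wj l := by
    have hinj : Function.Injective (fun l : List Blk => l ++ [Pool.Agent.BEX.F.uB]) := fun l l' h => List.append_cancel_right h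
    refine le_trans ?_ (ENNReal.tsum_comp_le_tsum_of_injective hinj fun l : List Blk => ind (Nar_P D π l) * wj l)
    rw [← ENNReal.tsum_mul_left]
    refine ENNReal.tsum_le_tsum fun l => ?_
    have e : wj (l ++ [Pool.Agent.BEX.F.uB]) = xE ^ 2 * wj l := by
      have h4 : wj (l ++ [Pool.Agent.BEX.F.uB]) = wj l * wj [Pool.Agent.BEX.F.uB] := hsI.toAlph.w_append _ _
      have h5 : wj [Pool.Agent.BEX.F.uB] = xE ^ 2 := by
        simp only [wj, List.map_cons, List.map_nil, List.prod_cons, List.prod_nil, mul_one]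
        rfl
      rw [h4, h5, mul_comm]
    show xE ^ 2 * (ind (l ∈ S ∧ hj l % 2 = 1 - π) * wj l) ≤ ind (Nar_P D π (l ++ [Pool.Agent.BEX.F.uB])) * wj (l ++ [Pool.Agent.BEX.F.uB])
    rw [e]
    calc xE ^ 2 * (ind (l ∈ S ∧ hj l % 2 = 1 - π) * wj l) = ind (l ∈ S ∧ hj l % 2 = 1 - π) * (xE ^ 2 * wj l) := by ring
      _ ≤ _ := by
        refine mul_le_mul' (ind_mono ?_) le_rfl
        rintro ⟨hl, hp⟩
        obtain ⟨a, b, c, d⟩ := hS l hl
        have hh : hj (l ++ [Pool.Agent.BEX.F.uB]) = hj l + 1 := by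
          have h4 : hj (l ++ [Pool.Agent.BEX.F.uB]) = hj l + hj [Pool.Agent.BEX.F.uB] := hsI.toAlph.h_append _ _
          have h5 : hj [Pool.Agent.BEX.F.uB] = 1 := by
            simp only [hj, List.map_cons, List.map_nil, List.sum_cons, List.sum_nil, add_zero]
            exact Nar_ht
          rw [h4, h5]
        refine ⟨by omega, by omega, by omega, ?_⟩
        have hu : hsI.toAlph.tub wdb 0 3 [Pool.Agent.BEX.F.uB] := by
          have h6 : ∀ (l1 : List Blk) (c' : Blk) (l2 : List Blk), [Pool.Agent.BEX.F.uB] = l1 ++ c' :: l2 →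
              |(xj l1 : ℝ) - 0 * hj l1| + wdb c' + |0| * htw c'.1 ≤ 3 := by
            intro l1 c' l2 he
            have hl1 : l1 = [] := by
              cases l1 with
              | nil => rfl
              | cons a l1 =>
                rw [List.cons_append, List.cons.injEq] at he
                have := congrArg List.length he.2
                simp at this
            subst hl1
            rw [List.nil_append, List.cons.injEq] at he
            rw [← he.1]
            simp only [xj, List.map_nil, List.sum_nil, Int.cast_zero, zero_mul, sub_zero, abs_zero, zero_add, add_zero]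
            exact_mod_cast Nar_wdb
          exact h6
        refine Alph.tub_append c hu ?_
        rw [zero_mul, sub_zero]
        exact d
  calc xE ^ 2 / 2 * m ≤ xE ^ 2 / 2 * (T π + T (1 - π)) := mul_le_mul' le_rfl h1
    _ = (xE ^ 2 * T π + xE ^ 2 * T (1 - π)) / 2 := by
        rw [div_eq_mul_inv, div_eq_mul_inv]
        ring
    _ ≤ (∑' l : List Blk, ind (Nar_P D π l) * wj l + ∑' l : List Blk, ind (Nar_P D π l) * wj l) / 2 := by
        refine ENNReal.div_le_div_right (add_le_add (le_trans ?_ h2) h3) _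
        calc xE ^ 2 * T π ≤ 1 * T π := mul_le_mul' (pow_le_one₀ zero_le xE_le) le_rfl
          _ = T π := one_mul _
    _ = _ := by
        rw [← two_mul, mul_comm, ENNReal.mul_div_cancel_right (by norm_num) (by norm_num)]

theorem nar : ∃ (K : ℕ) (c : ℝ≥0∞), 1 ≤ K ∧ 0 < c ∧ ∀ R D π : ℕ, 1 ≤ R → K * R ≤ D → π < 2 →
    c * hsI.U R ≤ ∑ h ∈ (Finset.Icc D (2 * D)).filter (fun h => h % 2 = π), nw ((D : ℝ) / 16) h := by
  obtain ⟨W, hW1, hW⟩ := Alph.wide_small (A := hsI.toAlph) tailP (hsI_quarter.stReg hsI_anti)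
  obtain ⟨c0, n0, hc0, hX⟩ := tube_all hsI_quarter 0 (1 / 100) (by norm_num)
  refine ⟨1000 * W + n0 + 1000, xE ^ 2 / 2 * (c0 / 2), by omega, ?_, ?_⟩
  · refine ENNReal.mul_pos (ENNReal.div_pos ?_ (by norm_num)).ne' (ENNReal.div_pos hc0.ne' (by norm_num)).ne'
    exact pow_ne_zero _ xE_ne.1
  intro R D π hR hKD hπ
  have hD1 : n0 ≤ D ∧ 1000 ≤ D ∧ 1000 * R ≤ D ∧ 1000 * (W * R) ≤ D := by
    have e : (1000 * W + n0 + 1000) * R = 1000 * (W * R) + n0 * R + 1000 * R := by ring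
    rw [e] at hKD
    have h1 : n0 ≤ n0 * R := Nat.le_mul_of_pos_right _ hR
    refine ⟨by omega, by omega, by omega, by omega⟩
  obtain ⟨hDn, hD2, hD3, hD4⟩ := hD1
  obtain ⟨X, hPF, hXl, hXm⟩ := hX (D + D / 4) (by omega)
  have hN' : 4 * (D + D / 4) ≤ 5 * D := by omega
  have hNr : ((D + D / 4 : ℕ) : ℝ) ≤ 5 / 4 * D := by
    have : ((4 * (D + D / 4) : ℕ) : ℝ) ≤ ((5 * D : ℕ) : ℝ) := by exact_mod_cast hN'
    rw [Nat.cast_mul, Nat.cast_mul] at this
    norm_num at this ⊢
    linarith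
  have hDr : (1000 : ℝ) ≤ D := by exact_mod_cast hD2
  have hRr : (1000 : ℝ) * R ≤ D := by exact_mod_cast hD3
  have hWr : (1000 : ℝ) * ((W * R : ℕ) : ℝ) ≤ D := by exact_mod_cast hD4
  set Q : Set (List Blk) := {l : List hsI.toAlph.B | hsI.toAlph.h l ≤ R ∧ hsI.toAlph.sw wdb l ≤ W * R} with hQ
  have hQm : hsI.toAlph.U R / 2 ≤ ∑' l, ind (l ∈ Q) * hsI.toAlph.w l := Nar_mass (hW R hR)
  have hbind := hPF.bind_mass (fun _ => Q) hXm (fun _ _ => hQm)
  have hmain := Nar_par (D := D) (S := {k | ∃ s l, k = s ++ l ∧ s ∈ X ∧ l ∈ Q}) (m := c0 * (hsI.toAlph.U R / 2)) hbind ?_ hπ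
  · refine le_trans ?_ (hmain.trans (Nar_sum D π))
    refine le_of_eq ?_
    rw [div_eq_mul_inv, div_eq_mul_inv, div_eq_mul_inv]
    ring
  · rintro k ⟨s, l, rfl, hs, hl1, hl2⟩
    obtain ⟨h1, h2, h3⟩ := hXl s hs
    have hhap : hj (s ++ l) = hj s + hj l := hsI.toAlph.h_append s l
    have hxap : xj (s ++ l) = xj s + xj l := hsI.toAlph.x_append s l
    have hls : hj l ≤ R := hl1
    have h1' : D + D / 4 ≤ hj s := h1
    have h2' : (hj s : ℝ) ≤ (1 + 1 / 100) * ((D + D / 4 : ℕ) : ℝ) := h2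
    have h2r : (hj s : ℝ) + R + 1 ≤ 2 * D := by
      have : (1 + 1 / 100) * ((D + D / 4 : ℕ) : ℝ) ≤ (1 + 1 / 100) * (5 / 4 * D) := mul_le_mul_of_nonneg_left hNr (by norm_num)
      linarith
    have h2n : hj s + R + 1 ≤ 2 * D := by exact_mod_cast h2r
    have t2 : hsI.toAlph.tub wdb 0 ((W * R : ℕ) : ℝ) l := Alph.tub_of_sw wdb_dx hl2
    have hE0 : (0 : ℝ) ≤ 1 / 100 * ((D + D / 4 : ℕ) : ℝ) := by positivity
    have hE1 : 1 / 100 * ((D + D / 4 : ℕ) : ℝ) ≤ 1 / 80 * D := by
      have := mul_le_mul_of_nonneg_left hNr (show (0 : ℝ) ≤ 1 / 100 by norm_num)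
      linarith
    have x1 : |(xj s : ℝ)| ≤ 1 / 80 * D := by
      have := Alph.tub_end hE0 wdb_dx h3
      rw [zero_mul, sub_zero] at this
      exact this.trans hE1
    have x2 : |(xj l : ℝ)| ≤ ((W * R : ℕ) : ℝ) := by
      have := Alph.tub_end (Nat.cast_nonneg _) wdb_dx t2
      rw [zero_mul, sub_zero] at this
      exact this
    refine ⟨?_, ?_, ?_, ?_⟩
    · rw [hhap]; omega
    · rw [hhap]; omega
    · refine Alph.tub_append (Alph.tub_mono h3 (hE1.trans (by linarith))) t2 ?_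
      rw [zero_mul, sub_zero]
      have : |(hsI.toAlph.x s : ℝ)| ≤ 1 / 80 * D := x1
      linarith
    · rw [hxap]
      push_cast
      have := abs_add_le (xj s : ℝ) (xj l : ℝ)
      linarith

end Pool.Agent.EVN
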