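import Pool.Agent.EVN.M.Arm
import Pool.Agent.EVN.M.Id
import Pool.Agent.EVN.M.ArmR
import Pool.Agent.EVN.M.Nar
import Pool.Agent.EVN.M.Emb
import Pool.Agent.EVN.M.Area

/-!
Project EVN, block M, module One: assembly of `MOne` and `MArea` (helper88).

PROOF of `MOne`. `K`, `c` of `nar`, `D = K1 R`, `K1 = K + 1100`. For every block `c` of size at most `60 R` with marked vertex `u` and narrow words `l1`, `l2` with
heights in `[D, 2 D]` (even, resp. of the parity of `htw c + 1`) the word `l1 ++ c :: l2` has height `2 N + 1`, `D ≤ N ≤ 3 D`, and with its mark at `v + (k, k)`,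
`|k| < D`, `v = o` or `o'`, it crosses the hexagon `Hx N` from left to right (`One_mk`). Hence (`One_low`, `One_up`)
`MM R (c U R)^2 ≤ ∑ k ∑ N (SN N (o + (k, k)) + SN N (o' + (k, k)))`. `mk_le`, `id_right`, `ZaR_le`: `SN N (v + (k, k)) ≤ C aA v (6 D + 1) (N + 1 - k)` (`One_SN`); for fixed
`k` the sum over `N` is at most `FM v (6 D + 1) (5 D) U (5 D)` by `arm_dec` (`One_conv`, `One_col`). There are at most `2 D` values of `k`; `U_scale` and `b_le_U`.
-/

namespace Pool.Agent.EVN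

open Pool.Agent.Hhelper14.SAW Pool.Agent.HHP Pool.Agent.HEP Pool.Agent.PLY.G Pool.Agent.RTA
open scoped ENNReal

/-- Tube words of slope zero. -/
lemma One_tubI {E0 : ℝ} {l : List Blk} : hsI.toAlph.tub wdb 0 E0 l ↔
    ∀ (l1 : List Blk) (c : Blk) (l2 : List Blk), l = l1 ++ c :: l2 → |(xj l1 : ℝ)| + wdb c ≤ E0 := by
  have h1 : hsI.toAlph.tub wdb 0 E0 l ↔ ∀ (l1 : List Blk) (c : Blk) (l2 : List Blk), l = l1 ++ c :: l2 →
      |(xj l1 : ℝ) - 0 * hj l1| + wdb c + |0| * htw c.1 ≤ E0 := Iff.rfl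
  rw [h1]
  simp only [zero_mul, sub_zero, abs_zero, add_zero]

/-- A tube word, a small block, a tube word. -/
lemma One_tub {E0 w : ℝ} (hE : 0 ≤ E0) {l1 l2 : List Blk} {c : Blk} (t1 : hsI.toAlph.tub wdb 0 E0 l1) (t2 : hsI.toAlph.tub wdb 0 E0 l2)
    (hc : (wdb c : ℝ) ≤ w) : hsI.toAlph.tub wdb 0 (E0 + (w + E0)) (l1 ++ c :: l2) := by
  have hw : (0 : ℝ) ≤ w := (Nat.cast_nonneg _).trans hc
  have hdx : |((E c.1).2 : ℝ)| ≤ wdb c := by
    have h1 := dx_wdb c
    have h2 : |(E c.1).2| ≤ (wdb c : ℤ) := by linarith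
    exact_mod_cast h2
  have hx1 : |(xj l1 : ℝ)| ≤ E0 := by
    have h2 : |(xj l1 : ℝ) - 0 * hj l1| ≤ E0 := tube_E hE t1
    simpa only [zero_mul, sub_zero] using h2
  rw [One_tubI] at t1 t2 ⊢
  intro m1 c' m2 h
  rcases List.append_eq_append_iff.1 h with ⟨t, h1, h2⟩ | ⟨t, h1, h2⟩
  · cases t with
    | nil =>
      rw [List.nil_append, List.cons.injEq] at h2
      rw [List.append_nil] at h1
      rw [h1, ← h2.1]
      linarith
    | cons a t =>
      rw [List.cons_append, List.cons.injEq] at h2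
      have h3 := t2 t c' m2 h2.2
      rw [h1, xj_append, xj_cons, ← h2.1]
      push_cast
      have h4 := abs_add_le (xj l1 : ℝ) (((E c.1).2 : ℝ) + xj t)
      have h5 := abs_add_le ((E c.1).2 : ℝ) (xj t : ℝ)
      linarith
  · cases t with
    | nil =>
      rw [List.nil_append, List.cons.injEq] at h2
      rw [List.append_nil] at h1
      rw [← h1, h2.1]
      linarith
    | cons a t =>
      rw [List.cons_append, List.cons.injEq] at h2
      have h3 := t1 m1 c' t (by rw [h1, h2.1])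
      linarith

/-- The word crosses a hexagon, with the mark close to the middle. -/
lemma One_mk {R D : ℕ} (hR : 1 ≤ R) (hD : 1100 * R ≤ D) {l1 l2 : List Blk} {c : Blk} {u : ℤ × ℤ} (hc : szB c ≤ 60 * R)
    (hu : u ∈ V c.1) (a1 : D ≤ hj l1) (a2 : hj l1 ≤ 2 * D) (t1 : hsI.toAlph.tub wdb 0 ((D : ℝ) / 16) l1)
    (b1 : D ≤ hj l2) (b2 : hj l2 ≤ 2 * D) (t2 : hsI.toAlph.tub wdb 0 ((D : ℝ) / 16) l2)
    (hp : (hj l1 + htw c.1 + hj l2) % 2 = 1) :
    ∃ N ∈ Finset.Icc D (3 * D), ∃ k ∈ Finset.Ioo (-(D : ℤ)) D, MkH N (o + (k, k)) l1 c l2 u ∨ MkH N (o' + (k, k)) l1 c l2 u := by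
  have hw1 : htw c.1 ≤ 60 * R := (le_max_left _ _).trans hc
  have hw2 : wdb c ≤ 60 * R := (le_max_right _ _).trans hc
  have hw3 : (wdb c : ℝ) ≤ 60 * R := by exact_mod_cast hw2
  have hp1 := htw_pos c.1
  have hub := c.2.br.1.2 u hu
  have huh := V_hon hu
  have hT := One_tub (by positivity) t1 t2 hw3
  have hne : l1 ++ c :: l2 ≠ [] := by simp
  have hlat : ∀ w ∈ V (jn (l1 ++ c :: l2)), |(w.2 : ℝ)| ≤ (D : ℝ) / 16 + (60 * R + (D : ℝ) / 16) := by
    intro w hw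
    have := tube_V hne hT hw
    simpa only [zero_mul, sub_zero] using this
  have hmk : |((ptz l1 + u).2 : ℝ)| ≤ (D : ℝ) / 16 + (60 * R + (D : ℝ) / 16) :=
    hlat _ ((mem_jn hne _).2 ⟨l1, c, l2, u, rfl, hu, rfl⟩)
  have hlat2 : ∀ w ∈ V (jn (l1 ++ c :: l2)), 4 * |(w - (ptz l1 + u)).2| ≤ D + 480 * R := by
    intro w hw
    have h1 := hlat w hw
    have h2 : |((w - (ptz l1 + u)).2 : ℝ)| ≤ (D : ℝ) / 4 + 120 * R := by
      rw [Prod.snd_sub]
      push_cast
      refine (abs_sub _ _).trans ?_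
      linarith
    have h3 : ((4 * |(w - (ptz l1 + u)).2| : ℤ) : ℝ) ≤ ((D + 480 * R : ℤ) : ℝ) := by
      push_cast
      linarith
    exact_mod_cast h3
  obtain ⟨N, hN⟩ : ∃ N, hj l1 + htw c.1 + hj l2 = 2 * N + 1 := ⟨(hj l1 + htw c.1 + hj l2) / 2, by omega⟩
  obtain ⟨j, hj2⟩ : ∃ j : ℤ, F0 u = 3 * j ∨ F0 u = 3 * j + 1 := by
    unfold hon at huh
    refine ⟨F0 u / 3, ?_⟩
    unfold F0
    omega
  have hRi : (1 : ℤ) ≤ R := by exact_mod_cast hR
  have hDi : 1100 * (R : ℤ) ≤ D := by exact_mod_cast hD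
  have key : ∀ (v : ℤ × ℤ) (k : ℤ), v.2 = 0 → 3 * (hj l1 : ℤ) + F0 u = F0 v + 3 * k + 3 * N → 2 * |k| ≤ D + 120 * R →
      MkH N (v + (k, k)) l1 c l2 u := by
    intro v k hv hk hk2
    refine ⟨hu, ?_, hN, ?_⟩
    · rw [F0_add, F0_ptz, hk, F0_add]
      simp only [F0]
      ring
    · intro w hw
      have h1 := hlat2 w hw
      have e : (w - (ptz l1 + u) + (v + (k, k))).2 = (w - (ptz l1 + u)).2 + k := by
        rw [Prod.snd_add, Prod.snd_add, hv, zero_add]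
      rw [e]
      refine (abs_add_le _ _).trans ?_
      omega
  refine ⟨N, Finset.mem_Icc.2 ⟨by omega, by omega⟩, ?_⟩
  rcases hj2 with hj2 | hj2
  · refine ⟨hj l1 + j - N, ?_, Or.inl (key _ _ rfl ?_ ?_)⟩
    · rw [Finset.mem_Ioo]
      constructor <;> omega
    · rw [hj2]
      simp only [o, F0]
      ring
    · rw [← abs_two (α := ℤ), ← abs_mul, abs_le]
      constructor <;> omega
  · refine ⟨hj l1 + j + 1 - N, ?_, Or.inr (key _ _ rfl ?_ ?_)⟩
    · rw [Finset.mem_Ioo]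
      constructor <;> omega
    · rw [hj2]
      simp only [o', F0]
      ring
    · rw [← abs_two (α := ℤ), ← abs_mul, abs_le]
      constructor <;> omega

/-- Narrow words with heights in the window and given parity. -/
def NwP (D π : ℕ) (l : List Blk) : Prop :=
  D ≤ hj l ∧ hj l ≤ 2 * D ∧ hj l % 2 = π ∧ hsI.toAlph.tub wdb 0 ((D : ℝ) / 16) l

/-- Their mass. -/
noncomputable def nwS (D π : ℕ) : ℝ≥0∞ := ∑' l : List Blk, ind (NwP D π l) * wj l

lemma One_nw (D π : ℕ) : ∑ h ∈ (Finset.Icc D (2 * D)).filter (fun h => h % 2 = π), nw ((D : ℝ) / 16) h ≤ nwS D π := by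
  unfold nw nwS
  rw [← Summable.tsum_finsetSum fun _ _ => ENNReal.summable]
  refine ENNReal.tsum_le_tsum fun l => ?_
  rw [← Finset.sum_mul]
  refine mul_le_mul_left ?_ _
  by_cases hg : NwP D π l
  · rw [ind_true hg]
    have : ∀ h ∈ (Finset.Icc D (2 * D)).filter (fun h => h % 2 = π),
        ind (hj l = h ∧ hsI.toAlph.tub wdb 0 ((D : ℝ) / 16) l) ≤ if h = hj l then 1 else 0 := by
      intro h _
      by_cases he : h = hj l
      · rw [if_pos he]
        exact ind_le_one _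
      · rw [if_neg he, ind_false fun hh => he hh.1.symm]
    refine (Finset.sum_le_sum this).trans ?_
    rw [Finset.sum_ite_eq']
    split_ifs
    · exact le_rfl
    · exact zero_le
  · rw [ind_false hg]
    refine (Finset.sum_eq_zero fun h hh => ?_).le
    refine ind_false fun ⟨h1, h2⟩ => hg ?_
    rw [Finset.mem_filter, Finset.mem_Icc] at hh
    exact ⟨by omega, by omega, by omega, h2⟩

/-- The mass of the good quadruples. -/
lemma One_low {R D : ℕ} {a : ℝ≥0∞} (h0 : ∀ π, π < 2 → a ≤ nwS D π) :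
    MM R * (a * a) ≤ ∑' l1 : List Blk, ∑' c : Blk, ∑' l2 : List Blk, ∑ _u ∈ (V c.1).toFinset,
      ind (szB c ≤ 60 * R ∧ NwP D 0 l1 ∧ NwP D ((htw c.1 + 1) % 2) l2) * (wj l1 * xE ^ (c.1.length + 1) * wj l2) := by
  rw [ENNReal.tsum_comm]
  unfold MM
  rw [← ENNReal.tsum_mul_right]
  refine ENNReal.tsum_le_tsum fun c => ?_
  have hcard : ((V c.1).toFinset.card : ℝ≥0∞) = ((c.1.length + 1 : ℕ) : ℝ≥0∞) := by
    rw [List.toFinset_card_of_nodup c.2.br.1.1]
    congr 1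
    exact vs_length _ _ _
  calc ind (szB c ≤ 60 * R) * (xE ^ (c.1.length + 1) * (c.1.length + 1 : ℕ)) * (a * a)
      ≤ ind (szB c ≤ 60 * R) * (xE ^ (c.1.length + 1) * (c.1.length + 1 : ℕ)) * (nwS D 0 * nwS D ((htw c.1 + 1) % 2)) := by
        gcongr
        · exact h0 0 (by norm_num)
        · exact h0 _ (Nat.mod_lt _ (by norm_num))
    _ = ∑' l1 : List Blk, ∑' l2 : List Blk, ∑ _u ∈ (V c.1).toFinset,
      ind (szB c ≤ 60 * R ∧ NwP D 0 l1 ∧ NwP D ((htw c.1 + 1) % 2) l2) * (wj l1 * xE ^ (c.1.length + 1) * wj l2) := by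
        unfold nwS
        rw [← ENNReal.tsum_mul_right, ← ENNReal.tsum_mul_left]
        refine tsum_congr fun l1 => ?_
        rw [← ENNReal.tsum_mul_left, ← ENNReal.tsum_mul_left]
        refine tsum_congr fun l2 => ?_
        rw [Finset.sum_const, nsmul_eq_mul, hcard, ind_and, ind_and]
        ring

/-- The mass at one centre. -/
noncomputable def SN (N : ℕ) (z : ℤ × ℤ) : ℝ≥0∞ :=
  ∑' l1 : List Blk, ∑' c : Blk, ∑' l2 : List Blk, ∑ u ∈ (V c.1).toFinset, ind (MkH N z l1 c l2 u) * (wj l1 * xE ^ (c.1.length + 1) * wj l2)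

lemma One_tsum_add (f g : List Blk → Blk → List Blk → ℝ≥0∞) :
    ∑' l1, ∑' c, ∑' l2, (f l1 c l2 + g l1 c l2) = (∑' l1, ∑' c, ∑' l2, f l1 c l2) + ∑' l1, ∑' c, ∑' l2, g l1 c l2 := by
  rw [← ENNReal.tsum_add]
  refine tsum_congr fun l1 => ?_
  rw [← ENNReal.tsum_add]
  refine tsum_congr fun c => ?_
  rw [← ENNReal.tsum_add]

lemma One_tsum_sum {ι : Type*} (s : Finset ι) (f : ι → List Blk → Blk → List Blk → ℝ≥0∞) :
    ∑' l1, ∑' c, ∑' l2, ∑ i ∈ s, f i l1 c l2 = ∑ i ∈ s, ∑' l1, ∑' c, ∑' l2, f i l1 c l2 := by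
  classical
  induction s using Finset.induction_on with
  | empty => simp
  | insert a s ha ih =>
    simp only [Finset.sum_insert ha]
    rw [One_tsum_add, ih]

lemma One_up {R D : ℕ} (hR : 1 ≤ R) (hD : 1100 * R ≤ D) :
    ∑' l1 : List Blk, ∑' c : Blk, ∑' l2 : List Blk, ∑ _u ∈ (V c.1).toFinset,
      ind (szB c ≤ 60 * R ∧ NwP D 0 l1 ∧ NwP D ((htw c.1 + 1) % 2) l2) * (wj l1 * xE ^ (c.1.length + 1) * wj l2) ≤
    ∑ k ∈ Finset.Ioo (-(D : ℤ)) D, ∑ N ∈ Finset.Icc D (3 * D), (SN N (o + (k, k)) + SN N (o' + (k, k))) := by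
  have e1 : ∀ (v : ℤ × ℤ), ∑ k ∈ Finset.Ioo (-(D : ℤ)) D, ∑ N ∈ Finset.Icc D (3 * D), SN N (v + (k, k)) =
      ∑' l1 : List Blk, ∑' c : Blk, ∑' l2 : List Blk, ∑ k ∈ Finset.Ioo (-(D : ℤ)) D, ∑ N ∈ Finset.Icc D (3 * D),
        ∑ u ∈ (V c.1).toFinset, ind (MkH N (v + (k, k)) l1 c l2 u) * (wj l1 * xE ^ (c.1.length + 1) * wj l2) := by
    intro v
    rw [One_tsum_sum]
    refine Finset.sum_congr rfl fun k _ => ?_
    rw [One_tsum_sum]
    rfl
  simp only [Finset.sum_add_distrib]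
  rw [e1, e1, ← One_tsum_add]
  refine ENNReal.tsum_le_tsum fun l1 => ENNReal.tsum_le_tsum fun c => ENNReal.tsum_le_tsum fun l2 => ?_
  have e2 : ∀ (v : ℤ × ℤ), ∑ k ∈ Finset.Ioo (-(D : ℤ)) D, ∑ N ∈ Finset.Icc D (3 * D),
        ∑ u ∈ (V c.1).toFinset, ind (MkH N (v + (k, k)) l1 c l2 u) * (wj l1 * xE ^ (c.1.length + 1) * wj l2) =
      ∑ u ∈ (V c.1).toFinset, ∑ k ∈ Finset.Ioo (-(D : ℤ)) D, ∑ N ∈ Finset.Icc D (3 * D),
        ind (MkH N (v + (k, k)) l1 c l2 u) * (wj l1 * xE ^ (c.1.length + 1) * wj l2) := by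
    intro v
    rw [Finset.sum_comm]
    rw [show (∑ u ∈ (V c.1).toFinset, ∑ k ∈ Finset.Ioo (-(D : ℤ)) D, ∑ N ∈ Finset.Icc D (3 * D),
        ind (MkH N (v + (k, k)) l1 c l2 u) * (wj l1 * xE ^ (c.1.length + 1) * wj l2)) =
      ∑ u ∈ (V c.1).toFinset, ∑ N ∈ Finset.Icc D (3 * D), ∑ k ∈ Finset.Ioo (-(D : ℤ)) D,
        ind (MkH N (v + (k, k)) l1 c l2 u) * (wj l1 * xE ^ (c.1.length + 1) * wj l2) from
        Finset.sum_congr rfl fun u _ => Finset.sum_comm]
    rw [Finset.sum_comm (s := (V c.1).toFinset)]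
    refine Finset.sum_congr rfl fun N _ => ?_
    rw [Finset.sum_comm]
  rw [e2, e2, ← Finset.sum_add_distrib]
  refine Finset.sum_le_sum fun u hu => ?_
  rw [List.mem_toFinset] at hu
  by_cases hg : szB c ≤ 60 * R ∧ NwP D 0 l1 ∧ NwP D ((htw c.1 + 1) % 2) l2
  · obtain ⟨hc, ⟨a1, a2, a3, a4⟩, ⟨b1, b2, b3, b4⟩⟩ := hg
    obtain ⟨N, hN, k, hk, hM⟩ := One_mk hR hD hc hu a1 a2 a4 b1 b2 b4 (by omega)
    refine (mul_le_mul_left (ind_le_one _) _).trans ?_
    rcases hM with hM | hM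
    · refine le_trans ?_ le_self_add
      refine le_trans ?_ (Finset.single_le_sum (fun _ _ => zero_le) hk)
      refine le_trans ?_ (Finset.single_le_sum (fun _ _ => zero_le) hN)
      rw [ind_true hM]
    · refine le_trans ?_ le_add_self
      refine le_trans ?_ (Finset.single_le_sum (fun _ _ => zero_le) hk)
      refine le_trans ?_ (Finset.single_le_sum (fun _ _ => zero_le) hN)
      rw [ind_true hM]
  · rw [ind_false hg, zero_mul]
    exact zero_le

/-- The constant of the marked identity. -/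
noncomputable def gam : ℝ≥0∞ := ENNReal.ofReal (Real.cos (3 * Real.pi / 8))

lemma gam_ne : gam ≠ 0 ∧ gam ≠ ⊤ := by
  unfold gam
  refine ⟨?_, ENNReal.ofReal_ne_top⟩
  have : 0 < Real.cos (3 * Real.pi / 8) := by
    refine Real.cos_pos_of_mem_Ioo ⟨?_, ?_⟩ <;> linarith [Real.pi_pos]
  exact (ENNReal.ofReal_pos.2 this).ne'

lemma One_SN {N D D' Q : ℕ} {k : ℤ} {v : ℤ × ℤ} (hv : v = o ∨ v = o') (hN : D ≤ N) (hk : -(D : ℤ) < k ∧ k < D)
    (hQ : (Q : ℤ) = N + 1 - k) (hD : 2 * N + 1 ≤ D') : gam * (xE * SN N (v + (k, k))) ≤ aA v D' Q := by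
  have hz : Hx N (v + (k, k)) := by
    rcases hv with rfl | rfl
    · simp only [Hx, hon, o, F0, F1, F2, F3, F4, F5, Prod.mk_add_mk]
      omega
    · simp only [Hx, hon, o', F0, F1, F2, F3, F4, F5, Prod.mk_add_mk]
      omega
  have h1 := mk_le hz
  have h2 := id_right hz
  have h3 : ENNReal.ofReal (ZaR N (v + (k, k))) ≤ aA v D' Q := by
    refine ZaR_le (τ := (k, k)) ?_ ?_ ?_ ?_ hD
    · simp
    · rw [hQ]
      simp only [F0]
      ring
    · simp only [F0]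
      rw [abs_le]
      constructor <;> omega
    · show |k| ≤ _
      rw [abs_le]
      constructor <;> omega
  calc gam * (xE * SN N (v + (k, k))) ≤ gam * ENNReal.ofReal (ZpR N (v + (k, k))) := mul_le_mul_right h1 _
    _ = ENNReal.ofReal (Real.cos (3 * Real.pi / 8) * ZpR N (v + (k, k))) := by
        unfold gam
        rw [ENNReal.ofReal_mul]
        refine Real.cos_nonneg_of_mem_Icc ⟨?_, ?_⟩ <;> linarith [Real.pi_pos]
    _ ≤ ENNReal.ofReal (ZaR N (v + (k, k))) := ENNReal.ofReal_le_ofReal h2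
    _ ≤ _ := h3

lemma One_conv (v : ℤ × ℤ) (D' M : ℕ) : ∑ Q ∈ Finset.range (M + 1), aA v D' Q ≤ FM v D' M * hsI.U M := by
  calc ∑ Q ∈ Finset.range (M + 1), aA v D' Q
      ≤ ∑ Q ∈ Finset.range (M + 1), ∑ q ∈ Finset.range (Q + 1), fA v D' q * hsI.b (Q - q) :=
        Finset.sum_le_sum fun Q _ => arm_dec v D' Q
    _ = ∑ Q ∈ Finset.range (M + 1), ∑ q ∈ Finset.range (M + 1), if q ≤ Q then fA v D' q * hsI.b (Q - q) else 0 := by
        refine Finset.sum_congr rfl fun Q hQ => ?_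
        rw [← Finset.sum_filter]
        refine Finset.sum_congr ?_ fun _ _ => rfl
        ext q
        simp only [Finset.mem_range, Finset.mem_filter] at hQ ⊢
        omega
    _ = ∑ q ∈ Finset.range (M + 1), ∑ Q ∈ Finset.range (M + 1), if q ≤ Q then fA v D' q * hsI.b (Q - q) else 0 := Finset.sum_comm
    _ ≤ ∑ q ∈ Finset.range (M + 1), fA v D' q * hsI.U M := by
        refine Finset.sum_le_sum fun q hq => ?_
        rw [← Finset.sum_filter, ← Finset.mul_sum]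
        refine mul_le_mul_right ?_ _
        show _ ≤ ∑ k ∈ Finset.range (M + 1), hsI.b k
        have e1 : ∑ Q ∈ (Finset.range (M + 1)).filter (fun Q => q ≤ Q), hsI.b (Q - q) =
            ∑ k ∈ Finset.range (M + 1 - q), hsI.b k := by
          refine Finset.sum_nbij' (fun Q => Q - q) (fun k => k + q) ?_ ?_ ?_ ?_ ?_
          · intro Q hQ
            simp only [Finset.mem_range, Finset.mem_filter] at hQ ⊢
            omega
          · intro k hk
            simp only [Finset.mem_range, Finset.mem_filter] at hk ⊢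
            omega
          · intro Q hQ
            simp only [Finset.mem_range, Finset.mem_filter] at hQ
            omega
          · intro k _
            omega
          · intro Q _
            rfl
        rw [e1]
        refine Finset.sum_le_sum_of_subset ?_
        rw [Finset.range_subset_range]
        omega
    _ = FM v D' M * hsI.U M := by
        rw [← Finset.sum_mul, FM_eq]

lemma One_col {D D' : ℕ} {k : ℤ} {v : ℤ × ℤ} (hv : v = o ∨ v = o') (hk : -(D : ℤ) < k ∧ k < D) (hD : 6 * D + 1 ≤ D') :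
    gam * (xE * ∑ N ∈ Finset.Icc D (3 * D), SN N (v + (k, k))) ≤ FM v D' (5 * D) * hsI.U (5 * D) := by
  rw [Finset.mul_sum, Finset.mul_sum]
  refine le_trans ?_ (One_conv v D' (5 * D))
  calc ∑ N ∈ Finset.Icc D (3 * D), gam * (xE * SN N (v + (k, k)))
      ≤ ∑ N ∈ Finset.Icc D (3 * D), aA v D' (N + 1 - k).toNat := by
        refine Finset.sum_le_sum fun N hN => ?_
        rw [Finset.mem_Icc] at hN
        refine One_SN hv hN.1 hk ?_ (by omega)
        rw [Int.toNat_of_nonneg (by omega)]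
    _ = ∑ Q ∈ (Finset.Icc D (3 * D)).image (fun N : ℕ => ((N : ℤ) + 1 - k).toNat), aA v D' Q := by
        rw [Finset.sum_image]
        intro a ha b hb hab
        simp only [Finset.coe_Icc, Set.mem_Icc] at ha hb hab
        omega
    _ ≤ _ := by
        refine Finset.sum_le_sum_of_subset ?_
        intro Q hQ
        rw [Finset.mem_image] at hQ
        obtain ⟨N, hN, rfl⟩ := hQ
        rw [Finset.mem_Icc] at hN
        rw [Finset.mem_range]
        omega

lemma FM_monoM {v : ℤ × ℤ} {D D' N N' : ℕ} (hD : D ≤ D') (hN : N ≤ N') : FM v D N ≤ FM v D' N' := by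
  have hsub : ∀ q, FA v D q ⊆ FA v D' q := by
    rintro q η ⟨y, η', h1, h2, h3, h4, h5, h6, h7, h8⟩
    refine ⟨y, η', h1, h2, h3, h4, h5, h6, fun z hz => ⟨(h7 z hz).1, ?_⟩, h8⟩
    obtain ⟨-, h9, h10⟩ := h7 z hz
    refine ⟨h9.trans ?_, h10.trans ?_⟩ <;> omega
  unfold FM
  refine (Finset.sum_le_sum fun q _ => ENNReal.tsum_mono_subtype (fun η : List (ℤ × ℤ) => xE ^ (η.length - 1)) (hsub q)).trans ?_
  refine Finset.sum_le_sum_of_subset ?_
  rw [Finset.range_subset_range]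
  omega

theorem m_area : MArea := area_of nar

theorem m_one : MOne := by
  obtain ⟨K, c, hK, hc0, hn⟩ := nar
  -- the constants
  obtain ⟨c', hc'⟩ : ∃ c', c' = min c 1 := ⟨_, rfl⟩
  have hc1 : c' ≠ 0 := by rw [hc']; exact (lt_min hc0 one_pos).ne'
  have hc2 : c' ≠ ⊤ := by rw [hc']; exact ne_top_of_le_ne_top ENNReal.one_ne_top (min_le_right _ _)
  have hcc : c' ≤ c := by rw [hc']; exact min_le_left _ _
  obtain ⟨K1, hK1⟩ : ∃ K1, K1 = K + 1100 := ⟨_, rfl⟩
  obtain ⟨κ, hκ⟩ : ∃ κ, κ = c' * c' * gam * xE := ⟨_, rfl⟩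
  have hκ0 : κ ≠ 0 := by
    rw [hκ]
    exact mul_ne_zero (mul_ne_zero (mul_ne_zero hc1 hc1) gam_ne.1) xE_ne.1
  have hκ1 : κ ≠ ⊤ := by
    rw [hκ]
    exact ENNReal.mul_ne_top (ENNReal.mul_ne_top (ENNReal.mul_ne_top hc2 hc2) gam_ne.2) xE_ne.2
  obtain ⟨A, hA⟩ : ∃ A : ℕ, A = (2 * K1) * (5 * K1 + 1) := ⟨_, rfl⟩
  obtain ⟨C1, hC1⟩ := ENNReal.exists_nat_gt (ENNReal.mul_ne_top (ENNReal.natCast_ne_top A) (ENNReal.inv_ne_top.2 hκ0))
  refine ⟨C1 + 6 * K1 + 1, fun R hR => ?_⟩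
  obtain ⟨D, hD⟩ : ∃ D, D = K1 * R := ⟨_, rfl⟩
  have hD1 : 1100 * R ≤ D := by rw [hD, hK1]; exact Nat.mul_le_mul_right _ (by omega)
  have hD2 : K * R ≤ D := by rw [hD, hK1]; exact Nat.mul_le_mul_right _ (by omega)
  obtain ⟨F, hF⟩ : ∃ F, F = FM o (6 * D + 1) (5 * D) + FM o' (6 * D + 1) (5 * D) := ⟨_, rfl⟩
  have hU0 := hsI.U_ne_zero R
  have hU1 := hsI.U_ne_top R
  -- the main inequality
  have h1 : MM R * ((c' * hsI.U R) * (c' * hsI.U R)) ≤
      ∑ k ∈ Finset.Ioo (-(D : ℤ)) D, ∑ N ∈ Finset.Icc D (3 * D), (SN N (o + (k, k)) + SN N (o' + (k, k))) := by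
    refine (One_low (D := D) fun π hπ => ?_).trans (One_up hR hD1)
    refine le_trans ?_ (One_nw D π)
    exact (mul_le_mul_left hcc _).trans (hn R D π hR hD2 hπ)
  have h2 : gam * (xE * ∑ k ∈ Finset.Ioo (-(D : ℤ)) D, ∑ N ∈ Finset.Icc D (3 * D), (SN N (o + (k, k)) + SN N (o' + (k, k)))) ≤
      (2 * D : ℕ) * (F * hsI.U (5 * D)) := by
    rw [Finset.mul_sum, Finset.mul_sum]
    calc ∑ k ∈ Finset.Ioo (-(D : ℤ)) D, gam * (xE * ∑ N ∈ Finset.Icc D (3 * D), (SN N (o + (k, k)) + SN N (o' + (k, k))))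
        ≤ ∑ k ∈ Finset.Ioo (-(D : ℤ)) D, F * hsI.U (5 * D) := by
          refine Finset.sum_le_sum fun k hk => ?_
          rw [Finset.mem_Ioo] at hk
          rw [Finset.sum_add_distrib, mul_add, mul_add, hF, add_mul]
          exact add_le_add (One_col (Or.inl rfl) hk le_rfl) (One_col (Or.inr rfl) hk le_rfl)
      _ = ((Finset.Ioo (-(D : ℤ)) D).card : ℝ≥0∞) * (F * hsI.U (5 * D)) := by
          rw [Finset.sum_const, nsmul_eq_mul]
      _ ≤ _ := by
          refine mul_le_mul_left ?_ _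
          rw [Int.card_Ioo]
          exact_mod_cast (by omega : ((D : ℤ) - (-(D : ℤ)) - 1).toNat ≤ 2 * D)
  have h3 : MM R * (hsI.U R * hsI.U R) * κ ≤ A * (R * hsI.U R) * F := by
    have e5 : 5 * D = (5 * K1) * R := by rw [hD]; ring
    have h4 : hsI.U (5 * D) ≤ (5 * K1 + 1 : ℕ) * hsI.U R := by
      rw [e5]
      refine (U_scale _ _).trans ?_
      push_cast
      rw [add_mul, one_mul]
      exact add_le_add le_rfl (U_ge_one R)
    calc MM R * (hsI.U R * hsI.U R) * κ = gam * (xE * (MM R * ((c' * hsI.U R) * (c' * hsI.U R)))) := by rw [hκ]; ring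
      _ ≤ _ := mul_le_mul_right (mul_le_mul_right h1 _) _
      _ ≤ _ := h2
      _ ≤ (2 * D : ℕ) * (F * ((5 * K1 + 1 : ℕ) * hsI.U R)) := by gcongr
      _ = A * (R * hsI.U R) * F := by
          rw [hA, hD]
          push_cast
          ring
  have h5 : MM R * hsI.b R * κ ≤ A * F := by
    have hRU0 : (R : ℝ≥0∞) * hsI.U R ≠ 0 := mul_ne_zero (by exact_mod_cast (by omega : R ≠ 0)) hU0
    have hRU1 : (R : ℝ≥0∞) * hsI.U R ≠ ⊤ := ENNReal.mul_ne_top (ENNReal.natCast_ne_top R) hU1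
    refine (ENNReal.mul_le_mul_iff_right hRU0 hRU1).1 ?_
    calc (R : ℝ≥0∞) * hsI.U R * (MM R * hsI.b R * κ) = MM R * ((R * hsI.b R) * hsI.U R) * κ := by ring
      _ ≤ MM R * (hsI.U R * hsI.U R) * κ := by
          gcongr
          exact b_le_U R
      _ ≤ _ := h3
      _ = _ := by ring
  have h6 : MM R * hsI.b R ≤ C1 * F := by
    calc MM R * hsI.b R = MM R * hsI.b R * κ * κ⁻¹ := by
          rw [mul_assoc, ENNReal.mul_inv_cancel hκ0 hκ1, mul_one]
      _ ≤ A * F * κ⁻¹ := mul_le_mul_left h5 _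
      _ = (A * κ⁻¹) * F := by ring
      _ ≤ _ := mul_le_mul_left hC1.le _
  refine h6.trans ?_
  have hbig : (6 * D + 1 ≤ (C1 + 6 * K1 + 1) * R) ∧ 5 * D ≤ (C1 + 6 * K1 + 1) * R := by
    rw [hD]
    constructor <;> nlinarith
  refine mul_le_mul' ?_ ?_
  · exact_mod_cast (by omega : C1 ≤ C1 + 6 * K1 + 1)
  · rw [hF]
    exact add_le_add (FM_monoM hbig.1 hbig.2) (FM_monoM hbig.1 hbig.2)

end Pool.Agent.EVN
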