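import Pool.Agent.EVN.M.Arm
import Pool.Agent.EVN.D.Theta
import Pool.Agent.RTA.Arms

/-!
Project EVN, block M, module Grow: GROWTH OF THE MASS OF THE ARMS WITHOUT CUT (helper25).

PROOF. An arm of `ArmZ N` (from `o`, in the hexagon `Hx N`, last vertex outside) leaves through one of the six sides (`exit6`). The rotations by 120 degrees about `o`
move the sides `F2`, `F4` to the right side `F0`, and `F1`, `F5` to the left side `F3`; the rotation by 180 degrees which exchanges `o` and `o'` moves the left side to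
the column `N`. So `Z1 N ≤ 3 aA o D (N + 1) + 3 aA o' D N`. Sum over `N < M`, `arm_dec`, `Z1 N ≥ c (N + 1) ^ (1/131)`, `U M ≤ C M ^ (3/4)`.
-/

namespace Pool.Agent.EVN

open Pool.Agent.Hhelper14.SAW Pool.Agent.HHP Pool.Agent.HEP Pool.Agent.PLY.G Pool.Agent.RTA
open scoped ENNReal

namespace Grow

/-- rotation by 180 degrees which exchanges `o` and `o'` -/
def s (z : ℤ × ℤ) : ℤ × ℤ := (-1 - z.1, -z.2)

/-- the six maps -/
def g : Fin 6 → (ℤ × ℤ) → (ℤ × ℤ)
  | 0 => fun z => z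
  | 1 => fun z => s (-z.1 - z.2, z.1)
  | 2 => fun z => (z.2, -z.1 - z.2)
  | 3 => fun z => s z
  | 4 => fun z => (-z.1 - z.2, z.1)
  | 5 => fun z => s (z.2, -z.1 - z.2)

/-- the image of `o` -/
def vv : Fin 6 → ℤ × ℤ
  | 0 => o
  | 1 => o'
  | 2 => o
  | 3 => o'
  | 4 => o
  | 5 => o'

/-- the column -/
def qq (N : ℕ) : Fin 6 → ℕ
  | 0 => N + 1
  | 1 => N
  | 2 => N + 1
  | 3 => N
  | 4 => N + 1
  | 5 => N

lemma g_inj (i : Fin 6) : Function.Injective (g i) := by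
  intro x y h
  obtain ⟨a, b⟩ := x
  obtain ⟨c, d⟩ := y
  fin_cases i <;> simp only [g, s, Prod.mk.injEq] at h ⊢ <;> omega

lemma g_o (i : Fin 6) : g i o = vv i := by
  fin_cases i <;> rfl

lemma g_adj (i : Fin 6) {x y : ℤ × ℤ} (h : Adj x y) : Adj (g i x) (g i y) := by
  obtain ⟨a, b⟩ := x
  obtain ⟨c, d⟩ := y
  obtain ⟨h1, h2, h3⟩ := h
  fin_cases i <;> simp only [g, s, Adj, hon, U, Prod.mk_sub_mk, Prod.mk.injEq] at h1 h2 h3 ⊢ <;> omega

lemma g_in (i : Fin 6) {N D : ℕ} (hD : N + 1 ≤ D) {z : ℤ × ℤ} (h : Hx N z) : F0 (g i z) < 3 * qq N i ∧ g i z ∈ Bx D := by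
  obtain ⟨a, b⟩ := z
  obtain ⟨-, g0, g1, g2, g3, g4, g5⟩ := h
  have hD' : (N + 1 : ℤ) ≤ D := by exact_mod_cast hD
  fin_cases i <;> simp only [g, s, qq, Bx, Set.mem_ofPred_eq, F0, F1, F2, F3, F4, F5, abs_le] at * <;> push_cast <;> omega

lemma g_out {N : ℕ} {u v : ℤ × ℤ} (hv : Hx N v) (hadj : Adj u v) (hu : ¬ Hx N u) : ∃ i, F0 (g i u) = 3 * qq N i := by
  have h := exit6 hv hadj hu
  obtain ⟨a, b⟩ := u
  rcases h with ⟨h, -⟩ | ⟨h, -⟩ | ⟨h, -⟩ | ⟨h, -⟩ | ⟨h, -⟩ | ⟨h, -⟩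
  · refine ⟨0, ?_⟩
    simp only [g, s, qq, F0, F1, F2, F3, F4, F5] at *
    push_cast
    omega
  · refine ⟨1, ?_⟩
    simp only [g, s, qq, F0, F1, F2, F3, F4, F5] at *
    omega
  · refine ⟨2, ?_⟩
    simp only [g, s, qq, F0, F1, F2, F3, F4, F5] at *
    push_cast
    omega
  · refine ⟨3, ?_⟩
    simp only [g, s, qq, F0, F1, F2, F3, F4, F5] at *
    omega
  · refine ⟨4, ?_⟩
    simp only [g, s, qq, F0, F1, F2, F3, F4, F5] at *
    push_cast
    omega
  · refine ⟨5, ?_⟩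
    simp only [g, s, qq, F0, F1, F2, F3, F4, F5] at *
    omega

/-- the arms which leave through the side `i` -/
def Ai (N : ℕ) (i : Fin 6) : Set (List (ℤ × ℤ)) := {R | R ∈ ArmZ N ∧ ∀ z ∈ R.getLast?, F0 (g i z) = 3 * qq N i}

/-- the arm from the other end, moved -/
def fl (i : Fin 6) (R : List (ℤ × ℤ)) : List (ℤ × ℤ) := (R.map (g i)).reverse

lemma fl_inj (i : Fin 6) : Function.Injective (fl i) := fun _ _ h =>
  List.map_injective_iff.2 (g_inj i) (List.reverse_injective h)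

lemma fl_mem (i : Fin 6) {N D : ℕ} (hD : N + 1 ≤ D) {R : List (ℤ × ℤ)} (hR : R ∈ Ai N i) : fl i R ∈ AR (vv i) D (qq N i) := by
  obtain ⟨hR, hl⟩ := hR
  obtain ⟨X, hX, hXne⟩ := armZ_cons hR
  obtain ⟨h1, h2, h3, h4, h5⟩ := hR
  obtain ⟨Y, y, hY⟩ : ∃ Y y, X = Y ++ [y] := ⟨X.dropLast, X.getLast hXne, (List.dropLast_append_getLast _).symm⟩
  have hR' : R = (o :: Y) ++ [y] := by rw [hX, hY]; rfl
  have hd : R.dropLast = o :: Y := by rw [hR', List.dropLast_concat]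
  have hg : R.getLast? = some y := by rw [hR']; exact List.getLast?_concat
  refine ⟨g i y, ((o :: Y).map (g i)).reverse, ?_, ?_, ?_, ?_, ?_, ?_, ?_⟩
  · unfold fl
    rw [hR']
    simp
  · unfold fl
    rw [List.getLast?_reverse, hX, List.map_cons, List.head?_cons, g_o]
  · unfold fl
    rw [List.nodup_reverse]
    exact h3.map (g_inj i)
  · unfold fl HChain
    rw [List.isChain_reverse, List.isChain_map]
    exact List.IsChain.imp (fun _ _ h => (g_adj i h).symm) h2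
  · exact hl y (by rw [hg]; rfl)
  · simp
  · intro z hz
    rw [List.mem_reverse, List.mem_map] at hz
    obtain ⟨w, hw, rfl⟩ := hz
    exact g_in i hD (h4 w (by rw [hd]; exact hw))

lemma side_le (i : Fin 6) {N D : ℕ} (hD : N + 1 ≤ D) : ∑' R : Ai N i, xE ^ (R.1.length - 1) ≤ aA (vv i) D (qq N i) := by
  let f : Ai N i → AR (vv i) D (qq N i) := fun R => ⟨fl i R.1, fl_mem i hD R.2⟩
  have hf : Function.Injective f := fun R R' h => Subtype.ext (fl_inj i (congrArg Subtype.val h))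
  have he : ∀ R : Ai N i, xE ^ (R.1.length - 1) = xE ^ ((f R).1.length - 1) := by
    intro R
    show _ = xE ^ ((fl i R.1).length - 1)
    unfold fl
    rw [List.length_reverse, List.length_map]
  simp only [he]
  exact ENNReal.tsum_comp_le_tsum_of_injective hf fun η : AR (vv i) D (qq N i) => xE ^ (η.1.length - 1)

lemma arm_cover (N : ℕ) : ArmZ N ⊆ ⋃ i, Ai N i := by
  intro R hR
  obtain ⟨t, x, y, ht, -, hb, -⟩ := ArmZ.cases hR
  obtain ⟨h1, h2, h3⟩ := mem_bdry.1 hb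
  obtain ⟨i, hi⟩ := g_out h1 h2.symm h3
  refine Set.mem_iUnion.2 ⟨i, hR, fun z hz => ?_⟩
  have hg : R.getLast? = some y := by rw [ht]; simp
  rw [hg] at hz
  have hzy : y = z := by simpa using hz
  rw [← hzy]
  exact hi

lemma Z1_le {N D : ℕ} (hD : N + 1 ≤ D) : ENNReal.ofReal (Z1 N) ≤ 3 * (aA o D (N + 1) + aA o' D N) := by
  have hx : 0 ≤ xc := xc_pos.le
  have h1 : ENNReal.ofReal (Z1 N) = ∑' R : ArmZ N, xE ^ (R.1.length - 1) := by
    have h : ArmZ N = ↑(armAll N) := by ext R; exact mem_armAll.symm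
    rw [← Z1_tsum, h, Finset.tsum_subtype' (armAll N) (fun R => xc ^ (R.length - 1)),
      Finset.tsum_subtype' (armAll N) (fun R => xE ^ (R.length - 1)),
      ENNReal.ofReal_sum_of_nonneg fun R _ => pow_nonneg hx _]
    refine Finset.sum_congr rfl fun R _ => ?_
    unfold xE
    rw [ENNReal.ofReal_pow hx]
  rw [h1]
  calc ∑' R : ArmZ N, xE ^ (R.1.length - 1) ≤ ∑' R : (⋃ i, Ai N i : Set (List (ℤ × ℤ))), xE ^ (R.1.length - 1) :=
        ENNReal.tsum_mono_subtype (fun R : List (ℤ × ℤ) => xE ^ (R.length - 1)) (arm_cover N)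
    _ ≤ ∑ i, ∑' R : Ai N i, xE ^ (R.1.length - 1) :=
        ENNReal.tsum_iUnion_le (fun R : List (ℤ × ℤ) => xE ^ (R.length - 1)) (Ai N)
    _ ≤ ∑ i, aA (vv i) D (qq N i) := Finset.sum_le_sum fun i _ => side_le i hD
    _ = aA o D (N + 1) + aA o' D N + aA o D (N + 1) + aA o' D N + aA o D (N + 1) + aA o' D N := by
        rw [Fin.sum_univ_six]
        rfl
    _ = _ := by ring

lemma conv (v : ℤ × ℤ) (D' M : ℕ) : ∑ Q ∈ Finset.range (M + 1), aA v D' Q ≤ FM v D' M * hsI.U M := by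
  calc ∑ Q ∈ Finset.range (M + 1), aA v D' Q
      ≤ ∑ Q ∈ Finset.range (M + 1), ∑ q ∈ Finset.range (Q + 1), fA v D' q * hsI.b (Q - q) :=
        Finset.sum_le_sum fun Q _ => arm_dec v D' Q
    _ = ∑ Q ∈ Finset.range (M + 1), ∑ q ∈ Finset.range (M + 1), if q ≤ Q then fA v D' q * hsI.b (Q - q) else 0 := by
        refine Finset.sum_congr rfl fun Q hQ => ?_
        rw [← Finset.sum_filter]
        refine Finset.sum_congr ?_ fun _ _ => rfl
        ext q
        simp only [Finset.mem_range, Finset.mem_filter] at hQ ⊢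
        omega
    _ = ∑ q ∈ Finset.range (M + 1), ∑ Q ∈ Finset.range (M + 1), if q ≤ Q then fA v D' q * hsI.b (Q - q) else 0 :=
        Finset.sum_comm
    _ ≤ ∑ q ∈ Finset.range (M + 1), fA v D' q * hsI.U M := by
        refine Finset.sum_le_sum fun q hq => ?_
        rw [← Finset.sum_filter, ← Finset.mul_sum]
        refine mul_le_mul_right ?_ _
        show _ ≤ ∑ k ∈ Finset.range (M + 1), hsI.b k
        refine le_of_eq_of_le (Finset.sum_bij' (t := Finset.range (M + 1 - q)) (g := hsI.b) (fun Q _ => Q - q) (fun k _ => k + q)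
          ?_ ?_ ?_ ?_ ?_) (Finset.sum_le_sum_of_subset (Finset.range_mono (Nat.sub_le _ _)))
        · intro Q hQ
          simp only [Finset.mem_filter, Finset.mem_range] at hQ ⊢
          omega
        · intro k hk
          simp only [Finset.mem_filter, Finset.mem_range] at hk ⊢
          omega
        · intro Q hQ
          simp only [Finset.mem_filter, Finset.mem_range] at hQ
          omega
        · intro k hk
          omega
        · intro Q hQ
          rfl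
    _ = _ := by
        rw [← Finset.sum_mul]
        rfl

lemma pow_sum (M : ℕ) (hM : 1 ≤ M) : (M : ℝ) ^ (1 + 1 / 131 : ℝ) / 2 ≤ ∑ N ∈ Finset.range M, ((N : ℝ) + 1) ^ (1 / 131 : ℝ) := by
  have hM0 : (0 : ℝ) < M := by exact_mod_cast hM
  have h1 : ∀ N ∈ Finset.range M, (M : ℝ) ^ (1 / 131 : ℝ) / M * ((N : ℝ) + 1) ≤ ((N : ℝ) + 1) ^ (1 / 131 : ℝ) := by
    intro N hN
    have hN1 : ((N : ℝ) + 1) ≤ M := by exact_mod_cast Finset.mem_range.1 hN
    have hN0 : (0 : ℝ) < (N : ℝ) + 1 := by positivity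
    have h2 : ((N : ℝ) + 1) / M ≤ (((N : ℝ) + 1) / M) ^ (1 / 131 : ℝ) := by
      calc ((N : ℝ) + 1) / M = (((N : ℝ) + 1) / M) ^ (1 : ℝ) := (Real.rpow_one _).symm
        _ ≤ _ := Real.rpow_le_rpow_of_exponent_ge (by positivity) ((div_le_one hM0).2 hN1) (by norm_num)
    rw [Real.div_rpow hN0.le hM0.le] at h2
    have h3 : 0 < (M : ℝ) ^ (1 / 131 : ℝ) := Real.rpow_pos_of_pos hM0 _
    calc (M : ℝ) ^ (1 / 131 : ℝ) / M * ((N : ℝ) + 1) = (((N : ℝ) + 1) / M) * (M : ℝ) ^ (1 / 131 : ℝ) := by ring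
      _ ≤ (((N : ℝ) + 1) ^ (1 / 131 : ℝ) / (M : ℝ) ^ (1 / 131 : ℝ)) * (M : ℝ) ^ (1 / 131 : ℝ) :=
          mul_le_mul_of_nonneg_right h2 h3.le
      _ = _ := div_mul_cancel₀ _ h3.ne'
  refine le_trans ?_ (Finset.sum_le_sum h1)
  rw [← Finset.mul_sum]
  have h4 : ∀ K : ℕ, ∑ N ∈ Finset.range K, ((N : ℝ) + 1) = (K : ℝ) * (K + 1) / 2 := by
    intro K
    induction K with
    | zero => simp
    | succ K ih => rw [Finset.sum_range_succ, ih]; push_cast; ring
  rw [h4, Real.rpow_add hM0, Real.rpow_one]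
  have h5 : 0 < (M : ℝ) ^ (1 / 131 : ℝ) := Real.rpow_pos_of_pos hM0 _
  have h6 : (M : ℝ) ^ (1 / 131 : ℝ) / M * ((M : ℝ) * (M + 1) / 2) = (M : ℝ) ^ (1 / 131 : ℝ) * (M + 1) / 2 := by
    field_simp
  rw [h6]
  nlinarith

end Grow

theorem m_grow : MGrow := by
  obtain ⟨c, hc, hZ⟩ := Z1_growth
  obtain ⟨c', C, -, hC, hU⟩ := pow_bounds
  have hC0 : 0 < C := by linarith
  refine ⟨c / (6 * C), by positivity, fun M hM => ?_⟩
  have hM0 : (0 : ℝ) < M := by exact_mod_cast hM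
  have h1 : ENNReal.ofReal (c * ((M : ℝ) ^ (1 + 1 / 131 : ℝ) / 2)) ≤
      3 * (FM o (2 * M) M + FM o' (2 * M) M) * hsI.U M := by
    calc ENNReal.ofReal (c * ((M : ℝ) ^ (1 + 1 / 131 : ℝ) / 2))
        ≤ ENNReal.ofReal (∑ N ∈ Finset.range M, c * ((N : ℝ) + 1) ^ (1 / 131 : ℝ)) := by
          refine ENNReal.ofReal_le_ofReal ?_
          rw [← Finset.mul_sum]
          exact mul_le_mul_of_nonneg_left (Grow.pow_sum M hM) hc.le
      _ = ∑ N ∈ Finset.range M, ENNReal.ofReal (c * ((N : ℝ) + 1) ^ (1 / 131 : ℝ)) :=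
          ENNReal.ofReal_sum_of_nonneg fun N _ => by positivity
      _ ≤ ∑ N ∈ Finset.range M, 3 * (aA o (2 * M) (N + 1) + aA o' (2 * M) N) := by
          refine Finset.sum_le_sum fun N hN => (ENNReal.ofReal_le_ofReal (hZ N)).trans (Grow.Z1_le ?_)
          have := Finset.mem_range.1 hN
          omega
      _ = 3 * (∑ N ∈ Finset.range M, aA o (2 * M) (N + 1) + ∑ N ∈ Finset.range M, aA o' (2 * M) N) := by
          rw [← Finset.mul_sum, Finset.sum_add_distrib]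
      _ ≤ 3 * (∑ Q ∈ Finset.range (M + 1), aA o (2 * M) Q + ∑ Q ∈ Finset.range (M + 1), aA o' (2 * M) Q) := by
          refine mul_le_mul_right (add_le_add ?_ ?_) _
          · rw [Finset.sum_range_succ' _ M]
            exact le_self_add
          · rw [Finset.sum_range_succ _ M]
            exact le_self_add
      _ ≤ 3 * (FM o (2 * M) M * hsI.U M + FM o' (2 * M) M * hsI.U M) :=
          mul_le_mul_right (add_le_add (Grow.conv _ _ _) (Grow.conv _ _ _)) _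
      _ = _ := by ring
  have h2 : ENNReal.ofReal (c * ((M : ℝ) ^ (1 + 1 / 131 : ℝ) / 2)) ≤
      (FM o (2 * M) M + FM o' (2 * M) M) * ENNReal.ofReal (3 * (C * (M : ℝ) ^ (3 / 4 : ℝ))) := by
    refine h1.trans ?_
    rw [ENNReal.ofReal_mul (by norm_num), ENNReal.ofReal_ofNat]
    calc 3 * (FM o (2 * M) M + FM o' (2 * M) M) * hsI.U M
        = (FM o (2 * M) M + FM o' (2 * M) M) * (3 * hsI.U M) := by ring
      _ ≤ _ := mul_le_mul_right (mul_le_mul_right (hU M hM).2.1 _) _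
  have hp : 0 < 3 * (C * (M : ℝ) ^ (3 / 4 : ℝ)) := by positivity
  have h3 : c / (6 * C) * (M : ℝ) ^ (1 / 4 + 1 / 131 : ℝ) =
      c * ((M : ℝ) ^ (1 + 1 / 131 : ℝ) / 2) / (3 * (C * (M : ℝ) ^ (3 / 4 : ℝ))) := by
    have h4 : (M : ℝ) ^ (1 + 1 / 131 : ℝ) = (M : ℝ) ^ (1 / 4 + 1 / 131 : ℝ) * (M : ℝ) ^ (3 / 4 : ℝ) := by
      rw [← Real.rpow_add hM0]
      norm_num
    have h5 : 0 < (M : ℝ) ^ (3 / 4 : ℝ) := by positivity
    rw [h4]
    field_simp
    ring
  rw [h3, ENNReal.ofReal_div_of_pos hp]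
  exact ENNReal.div_le_of_le_mul h2

end Pool.Agent.EVN
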