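import Pool.Agent.EVN.Defs
import Pool.Agent.EVN.M.IdG
import Pool.Agent.RAT.D.Cut1

/-!
EVN, part M: the arms through the right side are cut at their first cut column:
`mass AR N z ≤ ∑_(q ≤ Q) mass (FA v (2N+2) q) * b (Q - q)`, `Q` = number of columns from `z` to the right side, `v = o` or `o'` of
the type of `z`.
-/

namespace Pool.Agent.EVN.M

open Pool.Agent.Hhelper14.SAW Pool.Agent.RTA Pool.Agent.HHP Pool.Agent.HEP Pool.Agent.PLY.G
open scoped ENNReal

/-! ### bridges as lists -/

/-- Bridges of height `h`, latest vertex first, without the start `o`. -/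
def SB (h : ℕ) : Set (List (ℤ × ℤ)) :=
  {S | (S ++ [o]).Nodup ∧ HChain (S ++ [o]) ∧ (h = 0 → S = []) ∧
    (h ≠ 0 → ∃ y S', S = y :: S' ∧ F0 y = 3 * (h : ℤ) ∧ ∀ x ∈ S', 0 ≤ F0 x ∧ F0 x < 3 * (h : ℤ))}

lemma adj_hon {x y : ℤ × ℤ} (h : Adj x y) : hon x ∧ hon y := ⟨h.1, h.2.1⟩

lemma chain_hon {P : List (ℤ × ℤ)} (h : HChain P) (h2 : 2 ≤ P.length) : ∀ x ∈ P, hon x := by
  intro x hx
  obtain ⟨A, B, rfl⟩ := List.append_of_mem hx
  match B, h, h2 with
  | b :: B, h, _ =>
    have := (List.isChain_append.1 h).2.1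
    exact (List.isChain_cons_cons.1 this).1.1
  | [], h, h2 =>
    have hA : A ≠ [] := by rintro rfl; simp at h2
    obtain ⟨A', a, rfl⟩ : ∃ A' a, A = A' ++ [a] := ⟨A.dropLast, A.getLast hA, (List.dropLast_append_getLast _).symm⟩
    have e : A' ++ [a] ++ [x] = A' ++ [a, x] := by simp
    rw [e] at h
    have := (List.isChain_append.1 h).2.1
    exact (List.isChain_cons_cons.1 this).1.2.1

/-- The step from the columns `< q` to the columns `≥ q`. -/
lemma step_col {y e : ℤ × ℤ} {q : ℤ} (h : Adj y e) (h1 : 3 * q ≤ F0 y) (h2 : F0 e < 3 * q) :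
    F0 y = 3 * q ∧ F0 e = 3 * q - 2 ∧ y = e + (1, 0) := by
  obtain ⟨a, b⟩ := y
  obtain ⟨c, d⟩ := e
  obtain ⟨g1, g2, g3⟩ := h
  simp only [hon, U, Prod.mk_sub_mk, F0, Prod.mk_add_mk, Prod.mk.injEq] at *
  omega

private lemma surj {R : List (ℤ × ℤ)} (h0 : R.head? = some o) (hc : HChain R) (hn : R.Nodup)
    (hp : ∀ x ∈ R, hon x ∧ 0 ≤ F0 x) : ∃ W, V W = R := by
  have hD : Dom (fun z : ℤ × ℤ => hon z ∧ 0 ≤ F0 z) := by
    refine ⟨⟨by decide, by decide⟩, fun x h => h.1, fun x h => ?_⟩
    have := h.2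
    simp only [slit, F0] at *
    omega
  obtain ⟨S, rfl⟩ : ∃ S, R = o :: S := by
    cases R with
    | nil => simp at h0
    | cons a S =>
      simp only [List.head?_cons, Option.some.injEq] at h0
      exact ⟨S, by rw [h0]⟩
  have hs : IsSaw (fun z => hon z ∧ 0 ≤ F0 z) S.length ((o :: S).reverse ++ [o']) := by
    refine ⟨by simp, ?_, ?_, S.reverse, by simp, ?_⟩
    · rw [List.nodup_append]
      refine ⟨List.nodup_reverse.2 hn, by simp, ?_⟩
      intro x hx y hy hxy
      rw [List.mem_singleton] at hy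
      rw [List.mem_reverse] at hx
      have h3 := (hp x hx).2
      rw [hxy, hy] at h3
      revert h3
      decide
    · refine List.isChain_append.2 ⟨?_, by simp, ?_⟩
      · rw [List.isChain_reverse]
        exact List.IsChain.imp (fun _ _ h => h.symm) hc
      · intro x hx y hy
        simp only [List.reverse_cons, List.getLast?_append, List.getLast?_singleton, Option.mem_def,
          Option.some_or, Option.some.injEq, List.head?_cons] at hx hy
        rw [← hx, ← hy]
        exact adj_o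
    · intro x hx
      apply hp
      simpa [or_comm] using hx
  obtain ⟨W, -, -, -, h⟩ := toL_surj hD hs
  refine ⟨W, ?_⟩
  unfold toL at h
  exact List.reverse_injective (List.append_cancel_right h)

private lemma lastE (W : List Bool) : (V W).getLast? = some (E W) := by
  obtain ⟨r, hr⟩ := toL_cases W
  unfold toL at hr
  have hne : (V W) ≠ [] := List.ne_nil_of_mem (E_mem W)
  rw [← List.head?_reverse]
  cases hV : (V W).reverse with
  | nil => exact absurd (List.reverse_eq_nil_iff.1 hV) hne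
  | cons a l =>
    rw [hV] at hr
    simp only [List.cons_append, List.cons.injEq] at hr
    rw [hr.1]; rfl

lemma SB_word {k : ℕ} {S : List (ℤ × ℤ)} (h : S ∈ SB (k + 1)) :
    ∃ W : List Bool, Br k W ∧ V W = (S.tail ++ [o]).reverse ∧ S.headI = E W + (1, 0) ∧ S.length = W.length + 1 := by
  obtain ⟨h1, h2, -, h4⟩ := h
  obtain ⟨y, S', rfl, hy, hS⟩ := h4 (Nat.succ_ne_zero k)
  rw [List.cons_append] at h1 h2
  have hh := chain_hon h2 (by simp)
  obtain ⟨e, T, heT⟩ : ∃ e T, S' ++ [o] = e :: T := List.exists_cons_of_ne_nil (by simp)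
  have hbd : ∀ x ∈ S' ++ [o], 0 ≤ F0 x ∧ F0 x < 3 * ((k + 1 : ℕ) : ℤ) := by
    intro x hx
    rcases List.mem_append.1 hx with hx | hx
    · exact hS x hx
    · rw [List.mem_singleton] at hx
      subst hx
      have h0 : F0 o = 0 := by simp [F0, o]
      rw [h0]
      exact ⟨le_rfl, by positivity⟩
  have hadj : Adj y e := by
    rw [heT] at h2
    exact (List.isChain_cons_cons.1 h2).1
  have he : e ∈ S' ++ [o] := by rw [heT]; simp
  obtain ⟨g1, g2, g3⟩ := step_col hadj (q := ((k + 1 : ℕ) : ℤ)) hy.ge (hbd e he).2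
  obtain ⟨W, hW⟩ := surj (R := (S' ++ [o]).reverse) (by simp) (by
      rw [HChain, List.isChain_reverse]
      exact List.IsChain.imp (fun _ _ h => h.symm) h2.tail)
    (List.nodup_reverse.2 (List.nodup_cons.1 h1).2)
    (fun x hx => ⟨hh x (List.mem_cons_of_mem _ (List.mem_reverse.1 hx)), (hbd x (List.mem_reverse.1 hx)).1⟩)
  have hE : E W = e := by
    have := lastE W
    rw [hW, List.getLast?_reverse, heT, List.head?_cons, Option.some.injEq] at this
    exact this.symm
  refine ⟨W, ⟨⟨?_, ?_⟩, ?_⟩, hW, ?_, ?_⟩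
  · rw [hW]
    exact List.nodup_reverse.2 (List.nodup_cons.1 h1).2
  · intro x hx
    rw [hW] at hx
    have g := hbd x (List.mem_reverse.1 hx)
    have g' := hh x (List.mem_cons_of_mem _ (List.mem_reverse.1 hx))
    refine ⟨g.1, ?_⟩
    have g'' := g.2
    simp only [hon, F0] at *
    push_cast at g''
    omega
  · rw [hE, g2]
    push_cast
    ring
  · rw [List.headI_cons, g3, hE]
  · have := congrArg List.length hW
    rw [show (V W).length = W.length + 1 from vs_length _ _ _] at this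
    simp at this
    simp [this]

theorem SB_mass (h : ℕ) : ∑' S : SB h, xE ^ S.1.length ≤ hsI.b h := by
  cases h with
  | zero =>
    rw [Pool.Agent.HEP.hsI_b_zero]
    have hS : SB 0 ⊆ {[]} := fun S hS => hS.2.2.1 rfl
    refine (ENNReal.tsum_mono_subtype (fun S : List (ℤ × ℤ) => xE ^ S.length) hS).trans ?_
    rw [tsum_singleton ([] : List (ℤ × ℤ)) (fun S : List (ℤ × ℤ) => xE ^ S.length)]
    simp
  | succ k =>
    rw [Pool.Agent.HEP.hsI_b]
    unfold ms
    choose φ hφ using fun S : SB (k + 1) => SB_word S.2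
    have hinj : Function.Injective fun S : SB (k + 1) => (⟨φ S, (hφ S).1⟩ : {W : List Bool // Br k W}) := by
      intro S S' h
      have h' : φ S = φ S' := congrArg Subtype.val h
      obtain ⟨-, a2, a3, a4⟩ := hφ S
      obtain ⟨-, b2, b3, b4⟩ := hφ S'
      rw [h'] at a2 a3 a4
      have e1 : S.1.tail = S'.1.tail := List.append_cancel_right (List.reverse_injective (a2.symm.trans b2))
      have e2 : S.1.headI = S'.1.headI := a3.trans b3.symm
      apply Subtype.ext
      match hs : S.1, hs' : S'.1 with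
      | [], _ => rw [hs] at a4; simp at a4
      | _, [] => rw [hs'] at b4; simp at b4
      | a :: s, b :: t =>
        rw [hs, hs'] at e1 e2
        simp only [List.tail_cons, List.headI_cons] at e1 e2
        rw [e1, e2]
    calc ∑' S : SB (k + 1), xE ^ S.1.length
        = ∑' S : SB (k + 1), xE ^ ((⟨φ S, (hφ S).1⟩ : {W : List Bool // Br k W}).1.length + 1) :=
          tsum_congr fun S => congrArg (fun i => xE ^ i) (hφ S).2.2.2
      _ ≤ _ := ENNReal.tsum_comp_le_tsum_of_injective hinj (fun W : {W : List Bool // Br k W} => xE ^ (W.1.length + 1))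

/-! ### the first cut column -/

/-- Arms from `v` to the column `Q`. -/
def GA (v : ℤ × ℤ) (D Q : ℕ) : Set (List (ℤ × ℤ)) :=
  {η | ∃ y η', η = y :: η' ∧ η.getLast? = some v ∧ η.Nodup ∧ HChain η ∧ F0 y = 3 * (Q : ℤ) ∧ η' ≠ [] ∧
    ∀ z ∈ η', F0 z < 3 * (Q : ℤ) ∧ z ∈ Bx D}

/-- Glue. -/
def glu (η S : List (ℤ × ℤ)) : List (ℤ × ℤ) := S.map (fun x => x + η.headI) ++ η

lemma GA_cut {v : ℤ × ℤ} {D Q : ℕ} {η : List (ℤ × ℤ)} (h : η ∈ GA v D Q) :
    ∃ q, q ≤ Q ∧ ∃ η0 ∈ FA v D q, ∃ S ∈ SB (Q - q), η = glu η0 S := by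
  classical
  obtain ⟨y, η', rfl, hv, hN, hC, hy, hne, hb⟩ := h
  have hvη : v ∈ η' := by
    match η', hne with
    | a :: s, _ =>
      rw [List.getLast?_cons_cons] at hv
      exact List.mem_of_getLast? hv
  have hex : ∃ q : ℕ, F0 v < 3 * (q : ℤ) ∧ Cut q (y :: η') :=
    ⟨Q, (hb v hvη).1, [y], η', rfl, by simp, by intro z hz; rw [List.mem_singleton] at hz; rw [hz, hy],
      fun z hz => (hb z hz).1⟩
  set q := Nat.find hex with hq
  obtain ⟨hvq, A, B, hAB, hA, hA1, hB1⟩ := Nat.find_spec hex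
  rw [← hq] at hvq hA1 hB1
  have hqQ : q ≤ Q := Nat.find_min' hex ⟨(hb v hvη).1, [y], η', rfl, by simp,
    by intro z hz; rw [List.mem_singleton] at hz; rw [hz, hy], fun z hz => (hb z hz).1⟩
  have hmin : ∀ k : ℕ, k < q → F0 v < 3 * (k : ℤ) → ¬ Cut k (y :: η') := fun k hk h1 h2 => Nat.find_min hex hk ⟨h1, h2⟩
  have hBne : B ≠ [] := by
    rintro rfl
    rw [List.append_nil] at hAB
    have : v ∈ A := by rw [← hAB]; exact List.mem_of_getLast? hv
    have := hA1 v this
    omega
  obtain ⟨A', y0, rfl⟩ : ∃ A' y0, A = A' ++ [y0] := ⟨A.dropLast, A.getLast hA, (List.dropLast_append_getLast _).symm⟩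
  obtain ⟨b, B', rfl⟩ := List.exists_cons_of_ne_nil hBne
  have hAB2 : y :: η' = A' ++ y0 :: b :: B' := by rw [hAB]; simp
  have hC2 : HChain (y0 :: b :: B') := by
    rw [hAB2] at hC
    exact (List.isChain_append.1 hC).2.1
  have hN2 : (y0 :: b :: B').Nodup := by
    rw [hAB2] at hN
    exact (List.nodup_append.1 hN).2.1
  have hadj := (List.isChain_cons_cons.1 hC2).1
  obtain ⟨g1, -, -⟩ := step_col hadj (hA1 y0 (by simp)) (hB1 b (by simp))
  have hBη : ∀ z ∈ b :: B', z ∈ η' := by
    intro z hz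
    match A', hAB2 with
    | [], h =>
      simp only [List.nil_append, List.cons.injEq] at h
      rw [h.2]; exact hz
    | a :: A'', h =>
      simp only [List.cons_append, List.cons.injEq] at h
      rw [h.2]
      exact List.mem_append_right _ (List.mem_cons_of_mem _ hz)
  have h0 : (y0.1 - y0.2) % 3 = 0 := by
    simp only [F0] at g1
    omega
  refine ⟨q, hqQ, y0 :: b :: B', ⟨y0, b :: B', rfl, ?_, hN2, hC2, g1, by simp, ?_, ?_⟩, A'.map (fun w => w - y0), ?_, ?_⟩
  · rw [hAB2, List.getLast?_append] at hv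
    simpa using hv
  · intro z hz
    exact ⟨hB1 z hz, (hb z (hBη z hz)).2⟩
  · rintro k hk hvk ⟨A1, B1, e1, hA1ne, e2, e3⟩
    refine hmin k hk hvk ⟨A' ++ A1, B1, ?_, by simp [hA1ne], ?_, e3⟩
    · rw [hAB2, e1, List.append_assoc]
    · intro z hz
      rcases List.mem_append.1 hz with hz | hz
      · have := hA1 z (List.mem_append_left _ hz)
        have : (k : ℤ) < q := by exact_mod_cast hk
        omega
      · exact e2 z hz
  · have e : A'.map (fun w => w - y0) ++ [o] = (A' ++ [y0]).map (fun w => w - y0) := by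
      rw [List.map_append, List.map_cons, sub_self]
      rfl
    refine ⟨?_, ?_, ?_, ?_⟩
    · rw [e]
      rw [hAB] at hN
      exact ((List.nodup_append.1 hN).1).map (fun a b h => by simpa using h)
    · rw [e]
      rw [hAB] at hC
      have := (List.isChain_append.1 hC).1
      unfold HChain at this ⊢
      rw [List.isChain_map]
      exact this.imp fun _ _ h => Pool.Agent.RAT.sub_adj h0 h
    · intro hQq
      have hqe : q = Q := by omega
      match A', hAB2, hA1 with
      | [], _, _ => rfl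
      | a :: A'', h, hA1 =>
        exfalso
        simp only [List.cons_append, List.cons.injEq] at h
        have h1 : y0 ∈ η' := by rw [h.2]; simp
        have h2 := (hb y0 h1).1
        rw [g1, hqe] at h2
        omega
    · intro hQq
      match A', hAB2, hA1 with
      | [], h, _ =>
        exfalso
        simp only [List.nil_append, List.cons.injEq] at h
        rw [← h.1, hy] at g1
        have : (Q : ℤ) = q := by omega
        omega
      | a :: A'', h, hA1 =>
        simp only [List.cons_append, List.cons.injEq] at h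
        refine ⟨y - y0, A''.map (fun w => w - y0), by rw [← h.1]; rfl, ?_, ?_⟩
        · have : F0 (y - y0) = F0 y - F0 y0 := by simp only [F0, Prod.fst_sub, Prod.snd_sub]; ring
          rw [this, hy, g1]
          push_cast [Nat.cast_sub hqQ]
          ring
        · intro x hx
          obtain ⟨w, hw, rfl⟩ := List.mem_map.1 hx
          have : F0 (w - y0) = F0 w - F0 y0 := by simp only [F0, Prod.fst_sub, Prod.snd_sub]; ring
          rw [this, g1]
          have h1 := hA1 w (by simp [hw])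
          have h2 := (hb w (by rw [h.2]; simp [hw])).1
          push_cast [Nat.cast_sub hqQ]
          constructor <;> linarith
  · unfold glu
    rw [List.headI_cons, List.map_map]
    have : ((fun x => x + y0) ∘ fun w : ℤ × ℤ => w - y0) = id := by
      funext w
      simp
    rw [this, List.map_id]
    exact hAB2

theorem GA_mass (v : ℤ × ℤ) (D Q : ℕ) : ∑' η : GA v D Q, xE ^ (η.1.length - 1) ≤
    ∑ q ∈ Finset.range (Q + 1), (∑' η : FA v D q, xE ^ (η.1.length - 1)) * hsI.b (Q - q) := by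
  classical
  set g : (Σ q : Fin (Q + 1), (FA v D q.1) × (SB (Q - q.1))) → List (ℤ × ℤ) := fun x => glu x.2.1.1 x.2.2.1 with hg
  have hsub : GA v D Q ⊆ Set.range g := by
    intro η hη
    obtain ⟨q, hq, η0, h0, S, hS, rfl⟩ := GA_cut hη
    exact ⟨⟨⟨q, by omega⟩, ⟨η0, h0⟩, ⟨S, hS⟩⟩, rfl⟩
  refine (ENNReal.tsum_mono_subtype (fun η : List (ℤ × ℤ) => xE ^ (η.length - 1)) hsub).trans ?_
  refine (ENNReal.tsum_le_tsum_comp_of_surjective (Set.rangeFactorization_surjective (f := g))
    (fun η : Set.range g => xE ^ (η.1.length - 1))).trans ?_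
  rw [ENNReal.tsum_sigma', tsum_fintype, ← Fin.sum_univ_eq_sum_range
    (fun q => (∑' η : FA v D q, xE ^ (η.1.length - 1)) * hsI.b (Q - q))]
  refine Finset.sum_le_sum fun q _ => ?_
  refine (le_of_eq (ENNReal.tsum_prod (f := fun (a : FA v D q.1) (b : SB (Q - q.1)) =>
    xE ^ ((g ⟨q, (a, b)⟩).length - 1)))).trans ?_
  calc ∑' (a : FA v D q.1) (b : SB (Q - q.1)), xE ^ ((g ⟨q, (a, b)⟩).length - 1)
      = ∑' a : FA v D q.1, xE ^ (a.1.length - 1) * ∑' b : SB (Q - q.1), xE ^ b.1.length := by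
        refine tsum_congr fun a => ?_
        rw [← ENNReal.tsum_mul_left]
        refine tsum_congr fun b => ?_
        rw [← pow_add]
        congr 1
        obtain ⟨y, η', h1, -, -, -, -, -⟩ := a.2
        simp only [hg, glu, List.length_append, List.length_map]
        rw [h1]
        simp only [List.length_cons]
        omega
    _ = (∑' a : FA v D q.1, xE ^ (a.1.length - 1)) * ∑' b : SB (Q - q.1), xE ^ b.1.length := ENNReal.tsum_mul_right
    _ ≤ _ := mul_le_mul_right (SB_mass _) _

/-! ### the arms of the hexagon -/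

theorem AR_le' {N Q D : ℕ} {z v : ℤ × ℤ} (ht : ((z.1 - v.1) - (z.2 - v.2)) % 3 = 0) (hz : Hx N z)
    (hQ : F0 z - F0 v + 3 * (Q : ℤ) = 3 * N + 3) (hD : ∀ w, Hx N w → w - (z - v) ∈ Bx D) :
    ∑' R : AR N z, xE ^ (R.1.length - 1) ≤ ∑' η : GA v D Q, xE ^ (η.1.length - 1) := by
  set τ : ℤ × ℤ → ℤ × ℤ := fun x => x - (z - v) with hτ
  have hτi : Function.Injective τ := fun a b h => by simpa [hτ] using h
  have hmem : ∀ R : AR N z, (R.1.map τ).reverse ∈ GA v D Q := by
    rintro ⟨R, h1, h2, h3, h4, h5⟩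
    obtain ⟨X, rfl⟩ : ∃ X, R = z :: X := by
      cases R with
      | nil => simp at h1
      | cons a S =>
        simp only [List.head?_cons, Option.some.injEq] at h1
        exact ⟨S, by rw [h1]⟩
    have hX : X ≠ [] := by
      rintro rfl
      exact out_of (h5 z (by simp)) hz
    obtain ⟨Y, s', rfl⟩ : ∃ Y s', X = Y ++ [s'] := ⟨X.dropLast, X.getLast hX, (List.dropLast_append_getLast _).symm⟩
    have hs' : 3 * (N : ℤ) + 1 < F0 s' := h5 s' (by rw [← List.cons_append, List.getLast?_append]; simp)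
    have hd : (z :: (Y ++ [s'])).dropLast = z :: Y := by
      rw [← List.cons_append, List.dropLast_concat]
    rw [hd] at h4
    obtain ⟨t, s, hts⟩ : ∃ t s, z :: Y = t ++ [s] :=
      ⟨(z :: Y).dropLast, (z :: Y).getLast (by simp), (List.dropLast_append_getLast _).symm⟩
    have hadj : Adj s s' := by
      have h2' : HChain ((z :: Y) ++ [s']) := h2
      rw [hts] at h2'
      have e1 : t ++ [s] ++ [s'] = t ++ [s, s'] := by simp
      rw [e1] at h2'
      have := (List.isChain_append.1 h2').2.1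
      exact (List.isChain_cons_cons.1 this).1
    have hs : Hx N s := h4 s (by rw [hts]; simp)
    have hs3 : F0 s' = 3 * (N : ℤ) + 3 := by
      have g1 := hadj.symm
      obtain ⟨k1, k2, k3⟩ := g1
      obtain ⟨-, k4, -⟩ := hs
      obtain ⟨a, b⟩ := s
      obtain ⟨c, d⟩ := s'
      simp only [hon, U, Prod.mk_sub_mk, F0] at *
      omega
    simp only
    have hF : ∀ x, F0 (τ x) = F0 x - F0 z + F0 v := by
      intro x
      simp only [hτ, F0, Prod.fst_sub, Prod.snd_sub]
      ring
    refine ⟨τ s', ((z :: Y).map τ).reverse, ?_, ?_, ?_, ?_, ?_, by simp, ?_⟩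
    · rw [← List.cons_append, List.map_append, List.reverse_append]
      rfl
    · rw [List.getLast?_reverse, List.map_cons, List.head?_cons]
      simp [hτ]
    · exact List.nodup_reverse.2 (h3.map hτi)
    · unfold HChain
      rw [List.isChain_reverse, List.isChain_map]
      have hvz : ((z - v).1 - (z - v).2) % 3 = 0 := by simpa using ht
      exact h2.imp fun _ _ h => (Pool.Agent.RAT.sub_adj hvz h).symm
    · rw [hF, hs3]
      linarith
    · intro x hx
      obtain ⟨w, hw, rfl⟩ := List.mem_map.1 (List.mem_reverse.1 hx)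
      have hw' := h4 w hw
      refine ⟨?_, ?_⟩
      · rw [hF]
        have := hw'.2.1
        linarith
      · exact hD w hw'
  have hinj : Function.Injective fun R : AR N z => (⟨(R.1.map τ).reverse, hmem R⟩ : GA v D Q) := by
    intro R R' h
    have h' := congrArg Subtype.val h
    exact Subtype.ext (List.map_injective_iff.2 hτi (List.reverse_injective h'))
  calc ∑' R : AR N z, xE ^ (R.1.length - 1)
      = ∑' R : AR N z, xE ^ ((⟨(R.1.map τ).reverse, hmem R⟩ : GA v D Q).1.length - 1) :=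
        tsum_congr fun R => by simp
    _ ≤ _ := ENNReal.tsum_comp_le_tsum_of_injective hinj (fun η : GA v D Q => xE ^ (η.1.length - 1))

theorem AR_le {N Q : ℕ} {z v : ℤ × ℤ} (hv : v = o ∨ v = o') (ht : ((z.1 - v.1) - (z.2 - v.2)) % 3 = 0) (hz : Hx N z)
    (hQ : F0 z - F0 v + 3 * (Q : ℤ) = 3 * N + 3) :
    ∑' R : AR N z, xE ^ (R.1.length - 1) ≤ ∑' η : GA v (2 * N + 2) Q, xE ^ (η.1.length - 1) := by
  refine AR_le' ht hz hQ fun w hw' => ?_
  have hv0 : -2 ≤ F0 v ∧ F0 v ≤ 0 ∧ v.2 = 0 := by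
    rcases hv with rfl | rfl
    · simp [F0, o]
    · simp [F0, o']
  obtain ⟨-, b1, b2, b3, b4, b5, b6⟩ := hw'
  obtain ⟨-, c1, c2, c3, c4, c5, c6⟩ := hz
  refine ⟨?_, ?_⟩
  · rw [abs_le]
    simp only [F0, F3, Prod.fst_sub, Prod.snd_sub] at *
    push_cast
    constructor <;> omega
  · rw [abs_le]
    simp only [Prod.fst_sub, Prod.snd_sub, F0, F1, F2, F3, F4, F5] at *
    push_cast
    constructor <;> omega

/-- THE ARMS THROUGH THE RIGHT SIDE. -/
theorem arm_mass {N Q : ℕ} {z v : ℤ × ℤ} (hv : v = o ∨ v = o') (ht : ((z.1 - v.1) - (z.2 - v.2)) % 3 = 0)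
    (hz : Hx N z) (hQ : F0 z - F0 v + 3 * (Q : ℤ) = 3 * N + 3) :
    ∑' R : AR N z, xE ^ (R.1.length - 1) ≤
      ∑ q ∈ Finset.range (Q + 1), (∑' η : FA v (2 * N + 2) q, xE ^ (η.1.length - 1)) * hsI.b (Q - q) :=
  (AR_le hv ht hz hQ).trans (GA_mass v _ Q)

end Pool.Agent.EVN.M
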