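import Pool.Agent.EVN.M.Def
import Pool.Agent.EVN.M.ArmG

/-!
Project EVN, block M, module Arm: DECOMPOSITION OF AN ARM AT ITS FIRST CUT COLUMN (proof: M/ArmG, `GA_mass`).
-/

namespace Pool.Agent.EVN

open Pool.Agent.Hhelper14.SAW Pool.Agent.HHP Pool.Agent.HEP Pool.Agent.PLY.G Pool.Agent.RTA
open scoped ENNReal

theorem arm_dec (v : ℤ × ℤ) (D Q : ℕ) : aA v D Q ≤ ∑ q ∈ Finset.range (Q + 1), fA v D q * hsI.b (Q - q) :=
  M.GA_mass v D Q

end Pool.Agent.EVN
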