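import Pool.Agent.EVN.Stmt
import Pool.Agent.RTA.Sum
import Pool.Agent.GAP.IAc

/-!
Project EVN (MP_8c6f77_pr, note 3192), block M: definitions.

* `AR v D Q`: arms from `v` to the column `Q` (first arrival, last step from the column `Q - 1` to the column `Q`), inside `Bx D`; `FA v D q` (EVN/Defs) =
  those without earlier cut column. `fA`, `aA`: their masses. `FM v D N = ∑ q ≤ N, fA v D q` (definitional).
* `nw E h`: mass of the narrow words of height `h` (all vertices at lateral distance `≤ E` from the start).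
* `MkH N z l1 c l2 u`: the word `l1 ++ c :: l2` with the marked vertex `u` of the block `c`, put into the plane with the mark at `z`, crosses the hexagon `Hx N` from
  the left side to the right side inside `Hx N`.
* `bdR N`: the edges of the right side of the hexagon. `ZaR N z`: mass of the paths which enter `Hx N` through the right side and end at `z`;
  `ZpR N z`: mass of the paths which enter through the right side, visit `z` and leave `Hx N` anywhere.
-/

namespace Pool.Agent.EVN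

open Pool.Agent.Hhelper14.SAW Pool.Agent.HHP Pool.Agent.HEP Pool.Agent.PLY.G Pool.Agent.RTA
open scoped ENNReal

/-- Arms from `v` to the column `Q` inside `Bx D`. -/
def AR (v : ℤ × ℤ) (D Q : ℕ) : Set (List (ℤ × ℤ)) :=
  {η | ∃ y η', η = y :: η' ∧ η.getLast? = some v ∧ η.Nodup ∧ HChain η ∧ F0 y = 3 * Q ∧ η' ≠ [] ∧
    ∀ z ∈ η', F0 z < 3 * Q ∧ z ∈ Bx D}

/-- Mass of the arms without earlier cut column. -/
noncomputable def fA (v : ℤ × ℤ) (D q : ℕ) : ℝ≥0∞ := ∑' η : FA v D q, xE ^ (η.1.length - 1)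

/-- Mass of the arms. -/
noncomputable def aA (v : ℤ × ℤ) (D Q : ℕ) : ℝ≥0∞ := ∑' η : AR v D Q, xE ^ (η.1.length - 1)

lemma FM_eq (v : ℤ × ℤ) (D N : ℕ) : FM v D N = ∑ q ∈ Finset.range (N + 1), fA v D q := rfl

/-- Mass of the narrow words of height `h`. -/
noncomputable def nw (E : ℝ) (h : ℕ) : ℝ≥0∞ := ∑' l : List Blk, ind (hj l = h ∧ hsI.toAlph.tub wdb 0 E l) * wj l

/-- The word with a marked vertex crosses the hexagon from left to right when the mark is put at `z`. -/
def MkH (N : ℕ) (z : ℤ × ℤ) (l1 : List Blk) (c : Blk) (l2 : List Blk) (u : ℤ × ℤ) : Prop :=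
  u ∈ V c.1 ∧ F0 (ptz l1 + u) = F0 z + 3 * N ∧ hj l1 + htw c.1 + hj l2 = 2 * N + 1 ∧
    ∀ w ∈ V (jn (l1 ++ c :: l2)), |(w - (ptz l1 + u) + z).2| ≤ N

/-- The edges of the right side of the hexagon. -/
noncomputable def bdR (N : ℕ) : Finset ((ℤ × ℤ) × (ℤ × ℤ)) :=
  (bdry N).filter fun e => e.2 = e.1 + (1, 0) ∧ F0 e.1 = 3 * N + 1

/-- The paths which enter through the edge `e` and end at `z`. -/
noncomputable def aF (N : ℕ) (z : ℤ × ℤ) (e : (ℤ × ℤ) × (ℤ × ℤ)) (n : ℕ) : Finset (List (ℤ × ℤ)) :=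
  (sw (Hx N) e.1 e.2 n).filter fun P => P.headI = z

/-- The paths which enter through the edge `e`, visit `z` and leave the hexagon. -/
noncomputable def pF (N : ℕ) (z : ℤ × ℤ) (e : (ℤ × ℤ) × (ℤ × ℤ)) (n : ℕ) : Finset (List (ℤ × ℤ)) :=
  ((cn (Hx N) e.1 e.2 n).filter fun Q => z ∈ Q.tail).filter fun Q => ¬ Hx N Q.headI

/-- Mass of the paths which enter through the right side and end at `z`. -/
noncomputable def ZaR (N : ℕ) (z : ℤ × ℤ) : ℝ :=
  ∑ e ∈ bdR N, ∑ n ∈ Finset.range (Bn N), ∑ _P ∈ aF N z e n, xc ^ (n + 1)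

/-- Mass of the paths which enter through the right side and visit `z`. -/
noncomputable def ZpR (N : ℕ) (z : ℤ × ℤ) : ℝ :=
  ∑ e ∈ bdR N, ∑ n ∈ Finset.range (Bn N), ∑ _Q ∈ pF N z e n, xc ^ (n + 2)

/-- `U (K R)` is comparable to `U R`. -/
lemma U_scale (K R : ℕ) : hsI.U (K * R) ≤ K * hsI.U R + 1 := by
  have hA : Antitone hsI.b := hsI_anti
  induction K with
  | zero =>
    rw [Nat.zero_mul, Nat.cast_zero, zero_mul, zero_add]
    have h0 : hsI.U 0 = 1 := by
      show ∑ k ∈ Finset.range (0 + 1), hsI.b k = 1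
      rw [zero_add, Finset.sum_range_one]
      exact hsI_b_zero
    rw [h0]
  | succ K ih =>
    have h1 : hsI.U ((K + 1) * R) ≤ hsI.U (K * R) + hsI.U R := by
      show ∑ k ∈ Finset.range ((K + 1) * R + 1), hsI.b k ≤
        ∑ k ∈ Finset.range (K * R + 1), hsI.b k + ∑ k ∈ Finset.range (R + 1), hsI.b k
      rw [show (K + 1) * R + 1 = (K * R + 1) + R by ring, Finset.sum_range_add]
      refine add_le_add le_rfl ?_
      rw [Finset.sum_range_succ]
      refine le_trans (Finset.sum_le_sum fun i _ => hA ?_) le_self_add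
      omega
    calc hsI.U ((K + 1) * R) ≤ (K * hsI.U R + 1) + hsI.U R := h1.trans (add_le_add ih le_rfl)
      _ = _ := by push_cast; ring

/-- `R b R ≤ U R`. -/
lemma b_le_U (R : ℕ) : (R : ℝ≥0∞) * hsI.b R ≤ hsI.U R := by
  have hA : Antitone hsI.b := hsI_anti
  show (R : ℝ≥0∞) * hsI.b R ≤ ∑ k ∈ Finset.range (R + 1), hsI.b k
  rw [Finset.sum_range_succ]
  refine le_trans ?_ le_self_add
  calc (R : ℝ≥0∞) * hsI.b R = ∑ _k ∈ Finset.range R, hsI.b R := by
        rw [Finset.sum_const, Finset.card_range, nsmul_eq_mul]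
    _ ≤ _ := Finset.sum_le_sum fun k hk => hA (by have := Finset.mem_range.1 hk; omega)

lemma U_ge_one (R : ℕ) : 1 ≤ hsI.U R := by
  show 1 ≤ ∑ k ∈ Finset.range (R + 1), hsI.b k
  rw [Finset.sum_range_succ']
  have : hsI.b 0 = 1 := hsI_b_zero
  rw [this]
  exact le_add_self

end Pool.Agent.EVN
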